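import Mathlib

/-!
# The covector given by minors; sums of polynomials in separate variables
-/

set_option autoImplicit false

namespace Pool.DYN

open Finset Real

/-- **The covector.** If an `m × m` minor of the vectors `w` is at least `μ` and all the
`(m + 1) × (m + 1)` minors of the vectors `w, g` are at most `ν`, then a unit covector which
depends on `w` only takes a value at most `ν / μ` on `g`. -/
theorem covector {m c : ℕ} (hmc : m < c) (w : Fin m → Fin c → ℝ) (ρ : Fin m → Fin c) {μ : ℝ}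
    (hμ : 0 < μ) (h : μ ≤ |(Matrix.of fun a b => w a (ρ b)).det|) :
    ∃ N : Fin c → ℝ, (∀ i, |N i| ≤ 1) ∧ (∃ i, |N i| = 1) ∧ ∀ (g : Fin c → ℝ) (ν : ℝ),
      (∀ ρ' : Fin (m + 1) → Fin c, |(Matrix.of fun a b =>
        (Fin.snoc w g : Fin (m + 1) → Fin c → ℝ) a (ρ' b)).det| ≤ ν) →
      |∑ i, N i * g i| ≤ ν / μ := by
  classical
  obtain ⟨j₀, hj₀⟩ : ∃ j₀ : Fin c, ∀ b, ρ b ≠ j₀ := by
    by_contra hcon
    push Not at hcon
    have : Function.Surjective ρ := hcon
    have h1 := Fintype.card_le_of_surjective ρ this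
    simp at h1
    omega
  set ρ' : Fin (m + 1) → Fin c := Fin.snoc ρ j₀ with hρ'
  set D : Fin (m + 1) → ℝ := fun b => (Matrix.of fun a a' => w a (ρ' (b.succAbove a'))).det with hD
  set N : Fin c → ℝ := fun i => ∑ b, if ρ' b = i then (-1) ^ (m + (b : ℕ)) * D b else 0 with hN
  have hval : ∀ g : Fin c → ℝ, ∑ i, N i * g i = (Matrix.of fun a b =>
        (Fin.snoc w g : Fin (m + 1) → Fin c → ℝ) a (ρ' b)).det := by
    intro g
    rw [Matrix.det_succ_row _ (Fin.last m)]
    have e1 : ∀ i, N i * g i = ∑ b, if ρ' b = i then (-1) ^ (m + (b : ℕ)) * D b * g (ρ' b)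
        else 0 := by
      intro i
      rw [hN]
      dsimp only
      rw [Finset.sum_mul]
      refine Finset.sum_congr rfl fun b _ => ?_
      split_ifs with h1
      · rw [h1]
      · rw [zero_mul]
    rw [Finset.sum_congr rfl fun i _ => e1 i, Finset.sum_comm]
    refine Finset.sum_congr rfl fun b _ => ?_
    rw [Finset.sum_ite_eq, if_pos (Finset.mem_univ _)]
    simp only [Matrix.of_apply, Fin.snoc_last, Fin.val_last, hD]
    have e2 : ((Matrix.of fun a b => (Fin.snoc w g : Fin (m + 1) → Fin c → ℝ) a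
        (ρ' b)).submatrix (Fin.last m).succAbove b.succAbove) =
        Matrix.of fun a a' => w a (ρ' (b.succAbove a')) := by
      ext a a'
      simp only [Matrix.submatrix_apply, Matrix.of_apply, Fin.succAbove_last, Fin.snoc_castSucc]
    rw [e2]
    ring
  have hNj : |N j₀| = |(Matrix.of fun a b => w a (ρ b)).det| := by
    have e1 : N j₀ = (-1) ^ (m + m) * D (Fin.last m) := by
      rw [hN]
      dsimp only
      rw [Finset.sum_eq_single (Fin.last m)]
      · rw [if_pos (by rw [hρ', Fin.snoc_last])]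
        simp
      · intro b _ hb
        rw [if_neg]
        intro h1
        obtain ⟨b', rfl⟩ := Fin.exists_castSucc_eq.2 hb
        rw [hρ', Fin.snoc_castSucc] at h1
        exact hj₀ b' h1
      · intro h1
        exact absurd (Finset.mem_univ _) h1
    have e2 : D (Fin.last m) = (Matrix.of fun a b => w a (ρ b)).det := by
      rw [hD]
      dsimp only
      congr 1
      ext a a'
      simp only [Matrix.of_apply, Fin.succAbove_last, hρ', Fin.snoc_castSucc]
    rw [e1, e2, abs_mul, abs_pow, abs_neg, abs_one, one_pow, one_mul]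
  -- normalise
  have hc : Nonempty (Fin c) := ⟨j₀⟩
  obtain ⟨i₀, -, hi₀⟩ := Finset.exists_max_image Finset.univ (fun i => |N i|)
    ⟨j₀, Finset.mem_univ _⟩
  have hpos : μ ≤ |N i₀| := h.trans (hNj ▸ hi₀ j₀ (Finset.mem_univ _))
  have hpos' : 0 < |N i₀| := hμ.trans_le hpos
  refine ⟨fun i => N i / |N i₀|, ?_, ⟨i₀, ?_⟩, ?_⟩
  · intro i
    rw [abs_div, abs_abs, div_le_one hpos']
    exact hi₀ i (Finset.mem_univ _)
  · rw [abs_div, abs_abs, div_self hpos'.ne']
  · intro g ν hg
    have e1 : ∑ i, N i / |N i₀| * g i = (∑ i, N i * g i) / |N i₀| := by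
      rw [Finset.sum_div]
      exact Finset.sum_congr rfl fun i _ => by ring
    rw [e1, abs_div, abs_abs, hval]
    have h1 := hg ρ'
    have hν : 0 ≤ ν := (abs_nonneg _).trans h1
    calc |(Matrix.of fun a b => (Fin.snoc w g : Fin (m + 1) → Fin c → ℝ) a (ρ' b)).det| / |N i₀|
        ≤ ν / |N i₀| := div_le_div_of_nonneg_right h1 hpos'.le
      _ ≤ ν / μ := div_le_div_of_nonneg_left hν hμ hpos

/-! ### Sums of polynomials in separate variables -/

open MvPolynomial

/-- The variable `j` of the copy `k`. -/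
def emb {n d : ℕ} (k : Fin n) (j : Fin d) : Fin (n * d) := finProdFinEquiv (k, j)

theorem emb_inj {n d : ℕ} (k : Fin n) : Function.Injective (emb k : Fin d → Fin (n * d)) := by
  intro j j' h
  have := finProdFinEquiv.injective h
  exact (Prod.ext_iff.1 this).2

/-- The alternating sum, in separate variables. -/
noncomputable def psum {n d c : ℕ} (Q : Fin n → Fin c → MvPolynomial (Fin d) ℝ) (i : Fin c) :
    MvPolynomial (Fin (n * d)) ℝ :=
  ∑ k : Fin n, C ((-1) ^ (k : ℕ)) * rename (emb k) (Q k i)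

variable {n d c : ℕ} (Q : Fin n → Fin c → MvPolynomial (Fin d) ℝ)

theorem eval_psum (i : Fin c) (x : Fin (n * d) → ℝ) :
    eval x (psum Q i) = ∑ k : Fin n, (-1) ^ (k : ℕ) * eval (fun j => x (emb k j)) (Q k i) := by
  unfold psum
  rw [map_sum]
  refine Finset.sum_congr rfl fun k _ => ?_
  rw [map_mul, eval_C, eval_rename]
  rfl

theorem totalDegree_psum {K : ℕ} (h : ∀ k i, (Q k i).totalDegree ≤ K) (i : Fin c) :
    (psum Q i).totalDegree ≤ K := by
  unfold psum
  refine (totalDegree_finsetSum _ _).trans (Finset.sup_le fun k _ => ?_)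
  refine (totalDegree_mul _ _).trans ?_
  rw [totalDegree_C, zero_add]
  exact (totalDegree_rename_le _ _).trans (h k i)

theorem coeff_psum {B : ℝ} (h : ∀ k i m, |coeff m (Q k i)| ≤ B) (i : Fin c)
    (m : Fin (n * d) →₀ ℕ) : |coeff m (psum Q i)| ≤ n * B := by
  classical
  unfold psum
  rw [coeff_sum]
  refine (Finset.abs_sum_le_sum_abs _ _).trans ?_
  have h1 : ∀ k ∈ (Finset.univ : Finset (Fin n)),
      |coeff m (C ((-1) ^ (k : ℕ)) * rename (emb k) (Q k i))| ≤ B := by
    intro k _
    have hB : 0 ≤ B := (abs_nonneg _).trans (h k i 0)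
    rw [coeff_C_mul, abs_mul, abs_pow, abs_neg, abs_one, one_pow, one_mul]
    by_cases h2 : ∃ u : Fin d →₀ ℕ, Finsupp.mapDomain (emb k) u = m
    · obtain ⟨u, rfl⟩ := h2
      rw [coeff_rename_mapDomain _ (emb_inj k)]
      exact h k i u
    · rw [coeff_rename_eq_zero _ _ _ (fun u hu => absurd ⟨u, hu⟩ h2), abs_zero]
      exact hB
  refine (Finset.sum_le_sum h1).trans (le_of_eq ?_)
  rw [Finset.sum_const, Finset.card_univ, Fintype.card_fin, nsmul_eq_mul]

theorem eval_pderiv_psum (i : Fin c) (x : Fin (n * d) → ℝ) (k : Fin n) (j : Fin d) :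
    eval x (pderiv (emb k j) (psum Q i)) =
      (-1) ^ (k : ℕ) * eval (fun j => x (emb k j)) (pderiv j (Q k i)) := by
  classical
  unfold psum
  rw [map_sum, map_sum, Finset.sum_eq_single k]
  · rw [Derivation.leibniz, pderiv_C, smul_zero, add_zero, smul_eq_mul, pderiv_rename (emb_inj k),
      map_mul, eval_C, eval_rename]
    rfl
  · intro k' _ hk
    rw [Derivation.leibniz, pderiv_C, smul_zero, add_zero, smul_eq_mul]
    have h1 : pderiv (emb k j) (rename (emb k') (Q k' i)) = 0 := by
      refine pderiv_eq_zero_of_notMem_vars ?_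
      intro h2
      have h3 := vars_rename (emb k') (Q k' i) h2
      rw [Finset.mem_image] at h3
      obtain ⟨j', _, hj'⟩ := h3
      have := finProdFinEquiv.injective hj'
      exact hk (Prod.ext_iff.1 this).1
    rw [h1, mul_zero, map_zero]
  · intro h1
    exact absurd (Finset.mem_univ _) h1

end Pool.DYN
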