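import Pool.Agent.H67.BFL.Mch

/-!
# The walk

`M` is independent of `V`, and `M + f V` is independent of `V`, up to `ε`. The walk is the chain
of conditional copies `z 0, z 1, …` of the sample, where `z (i + 1)` is a copy of `z i` given
`M + f V` (`i` even) or `M` (`i` odd). Then `M (z (2 r))` is `M (z 0)` plus the sum of the
differences `f (V (z (2 i))) - f (V (z (2 i + 1)))`, the variables `V (z i)` are jointly almost
independent and almost independent of `M (z 0)`, and `z (2 r)` is almost independent of
`V (z 0), …, V (z (2 r - 1))`.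
-/

set_option autoImplicit false

namespace Pool.DYN

open Finset Real
open Pool.Agent.H49.Ent Pool.Agent.H32.Dense Pool.STK Pool.KS3
open Pool.BFL (MC)

section

variable {Ω W 𝒱 G : Type} [Fintype Ω] [Fintype W] [AddCommGroup G]

omit [Fintype W] [AddCommGroup G] in
theorem H_unit {S : Type} {p : Ω → ℝ} (hp : IsLaw p) (X : Ω → S) :
    H p X = CH p X (fun _ => ()) := by
  unfold CH
  rw [H_const hp.sum_one, sub_zero]
  refine H_congr hp.nonneg ?_ ?_
  · intro ω ω' _ _ h
    exact congrArg Prod.fst h
  · intro ω ω' _ _ h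
    exact Prod.ext h rfl

/-- The conditions of the walk. -/
def cw (M S : Ω → G) (i : ℕ) (ω : Ω) : G := if i % 2 = 0 then S ω else M ω

/-- The first `j` values. -/
def tup {S : Type} (A : Ω → S) (z : ℕ → W → Ω) (j : ℕ) (w : W) (k : Fin j) : S := A (z k w)

variable {p : Ω → ℝ} {M : Ω → G} {V : Ω → 𝒱} {f : 𝒱 → G} {n : ℕ} {q : W → ℝ} {z : ℕ → W → Ω}

/-- Telescoping. -/
theorem walk_sum (h : MC p (cw M (fun ω => M ω + f (V ω))) n q z) (w : W) (hw : 0 < q w) :
    ∀ r : ℕ, 2 * r ≤ n → M (z (2 * r) w) =
      M (z 0 w) + ∑ i ∈ range r, (f (V (z (2 * i) w)) - f (V (z (2 * i + 1) w))) := by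
  intro r
  induction r with
  | zero => intro _; simp
  | succ r ih =>
    intro hr
    have h1 := ih (by omega)
    have h2 := h.same w hw (2 * r) (by omega)
    have h3 := h.same w hw (2 * r + 1) (by omega)
    unfold cw at h2 h3
    rw [if_pos (by omega), if_pos (by omega)] at h2
    rw [if_neg (by omega), if_neg (by omega)] at h3
    rw [Finset.sum_range_succ, ← add_assoc, ← h1]
    have e : 2 * (r + 1) = 2 * r + 1 + 1 := by ring
    rw [e, ← h3]
    have h4 : M (z (2 * r + 1) w) = M (z (2 * r) w) + f (V (z (2 * r) w)) -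
        f (V (z (2 * r + 1) w)) := eq_sub_of_add_eq h2.symm
    rw [h4]
    abel

/-- One step. -/
theorem walk_step {C S : Type} {c : ℕ → Ω → C} (h : MC p c n q z) (A : Ω → S) (j : ℕ)
    (hj : j < n) : CH q (fun w => A (z (j + 1) w)) (tup (fun ω => ω) z (j + 1)) =
      CH p A (c j) := by
  have hq := h.isLaw.nonneg
  have h1 := h.markov j hj
  have h2 : CI q (fun w => A (z (j + 1) w)) (fun w (k : Fin (j + 1)) => z k w)
      (fun w => c j (z j w)) := by
    refine h1.mono_left hq ?_
    intro w w' _ _ e
    have e1 := congrFun (Prod.ext_iff.1 e).1 (⟨0, by omega⟩ : Fin (n - j))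
    simp only [add_zero] at e1
    simp only [e1]
  unfold CI at h2
  have h3 : CH q (fun w => A (z (j + 1) w)) (tup (fun ω => ω) z (j + 1)) =
      CH q (fun w => A (z (j + 1) w)) (fun w => ((fun k : Fin (j + 1) => z k w), c j (z j w))) := by
    refine CH_congr hq (fun _ _ _ _ e => (Prod.ext_iff.1 e).1) (fun _ _ _ _ e =>
      (Prod.ext_iff.1 e).1) ?_ ?_
    · intro w w' _ _ e
      refine Prod.ext e ?_
      have e1 := congrFun e (Fin.last j)
      simp only [tup, Fin.val_last] at e1
      simp only [e1]
    · intro w w' _ _ e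
      exact (Prod.ext_iff.1 e).1
  rw [h3, h2]
  have h4 : CH q (fun w => A (z (j + 1) w)) (fun w => c j (z j w)) =
      CH q (fun w => A (z (j + 1) w)) (fun w => c j (z (j + 1) w)) := by
    refine CH_congr hq (fun _ _ _ _ e => (Prod.ext_iff.1 e).1) (fun _ _ _ _ e =>
      (Prod.ext_iff.1 e).1) ?_ ?_
    · intro w w' a b e
      simp only at e ⊢
      rw [← h.same w a j hj, ← h.same w' b j hj]
      exact e
    · intro w w' a b e
      simp only at e ⊢
      rw [h.same w a j hj, h.same w' b j hj]
      exact e
  rw [h4]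
  exact (h.marg (j + 1) hj).CH A (c j)

omit [Fintype Ω] in
/-- The chain rule for tuples. -/
theorem tup_succ {S T : Type} (hq : ∀ w, 0 ≤ q w) (A : Ω → S) (D : W → T) (j : ℕ) :
    CH q (tup A z (j + 1)) D = CH q (tup A z j) D +
      CH q (fun w => A (z j w)) (fun w => (tup A z j w, D w)) := by
  rw [← CH_chain hq]
  refine CH_congr hq ?_ ?_ (fun _ _ _ _ e => e) (fun _ _ _ _ e => e)
  · intro w w' _ _ e
    have e1 := (Prod.ext_iff.1 e).1
    refine Prod.ext ?_ ?_
    · have := congrFun e1 (Fin.last j)
      simpa [tup] using this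
    · funext k
      have := congrFun e1 k.castSucc
      simpa [tup] using this
  · intro w w' _ _ e
    have e1 := (Prod.ext_iff.1 e).1
    have e2 := (Prod.ext_iff.1 e1).1
    have e3 := (Prod.ext_iff.1 e1).2
    funext k
    refine Fin.lastCases ?_ (fun k => ?_) k
    · simpa [tup] using e2
    · have := congrFun e3 k
      simpa [tup] using this

/-- The variables `V` of the walk are almost independent, also of `M (z 0)`. -/
theorem walk_indep (h : MC p (cw M (fun ω => M ω + f (V ω))) n q z) {ε : ℝ}
    (h1 : H p V - ε ≤ CH p V M) (h2 : H p V - ε ≤ CH p V (fun ω => M ω + f (V ω))) :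
    ∀ j : ℕ, j ≤ n + 1 → j * (H p V - ε) ≤ CH q (tup V z j) (fun w => M (z 0 w)) := by
  have hq := h.isLaw.nonneg
  intro j
  induction j with
  | zero => intro _; simpa using CH_nonneg hq _ _
  | succ j ih =>
    intro hj
    have h3 := ih (by omega)
    rw [tup_succ hq]
    have h4 : H p V - ε ≤ CH q (fun w => V (z j w)) (fun w => (tup V z j w, M (z 0 w))) := by
      rcases Nat.eq_zero_or_pos j with h0 | h0
      · subst h0
        have e1 : CH q (fun w => V (z 0 w)) (fun w => (tup V z 0 w, M (z 0 w))) =
            CH q (fun w => V (z 0 w)) (fun w => M (z 0 w)) := by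
          refine CH_congr hq (fun _ _ _ _ e => (Prod.ext_iff.1 e).1) (fun _ _ _ _ e =>
            (Prod.ext_iff.1 e).1) (fun _ _ _ _ e => (Prod.ext_iff.1 e).2) ?_
          intro w w' _ _ e
          refine Prod.ext ?_ e
          funext k
          exact k.elim0
        rw [e1, (h.marg 0 (Nat.zero_le n)).CH V M]
        exact h1
      · obtain ⟨i, rfl⟩ : ∃ i, j = i + 1 := ⟨j - 1, by omega⟩
        have e1 := walk_step h V i (by omega)
        have e2 : CH q (fun w => V (z (i + 1) w)) (tup (fun ω => ω) z (i + 1)) ≤
            CH q (fun w => V (z (i + 1) w)) (fun w => (tup V z (i + 1) w, M (z 0 w))) := by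
          refine CH_mono_cond hq ?_
          intro w w' _ _ e
          refine Prod.ext ?_ ?_
          · funext k
            have := congrFun e k
            simp only [tup] at this ⊢
            rw [this]
          · have := congrFun e 0
            simp only [tup, Fin.val_zero] at this
            simp only [this]
        rw [e1] at e2
        refine le_trans ?_ e2
        unfold cw
        by_cases hi : i % 2 = 0
        · simp only [if_pos hi]
          exact h2
        · simp only [if_neg hi]
          exact h1
    push_cast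
    linarith

/-- Subadditivity for tuples. -/
theorem tup_le {S : Type} {C : Type} {c : ℕ → Ω → C} (h : MC p c n q z) (A : Ω → S) :
    ∀ j : ℕ, j ≤ n + 1 → CH q (tup A z j) (fun _ => ()) ≤ j * H p A := by
  have hq := h.isLaw.nonneg
  intro j
  induction j with
  | zero =>
    intro _
    have : CH q (tup A z 0) (fun _ => ()) = 0 := by
      refine CH_eq_zero hq ?_
      intro w w' _ _ _
      funext k
      exact k.elim0
    rw [this]
    simp
  | succ j ih =>
    intro hj
    rw [tup_succ hq]
    have h1 := ih (by omega)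
    have h2 : CH q (fun w => A (z j w)) (fun w => (tup A z j w, ())) ≤ H p A := by
      have e1 : CH q (fun w => A (z j w)) (fun w => (tup A z j w, ())) ≤
          CH q (fun w => A (z j w)) (fun _ => ()) := CH_mono_cond hq fun _ _ _ _ _ => rfl
      refine e1.trans ?_
      unfold CH
      rw [H_const h.isLaw.sum_one, sub_zero]
      have e2 := (h.marg j (by omega)).H (fun ω => (A ω, ()))
      rw [e2]
      have e3 : ∀ ω, 0 ≤ p ω := by
        classical
        intro ω
        rw [← (h.marg j (by omega)) ω]
        exact Finset.sum_nonneg fun w _ => by split_ifs; exacts [hq w, le_rfl]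
      exact H_mono e3 (fun ω ω' _ _ e => Prod.ext e rfl)
    push_cast
    linarith

/-- `z (2 r)` is almost independent of the variables `V` of the past. -/
theorem walk_past (hp : IsLaw p) (h : MC p (cw M (fun ω => M ω + f (V ω))) n q z) {ε : ℝ}
    (h1 : H p V - ε ≤ CH p V M) (h2 : H p V - ε ≤ CH p V (fun ω => M ω + f (V ω)))
    (r : ℕ) (hr : 2 * r ≤ n) :
    H p (fun ω => ω) - 2 * r * ε ≤ CH q (z (2 * r)) (tup V z (2 * r)) := by
  have hq := h.isLaw.nonneg
  -- `M (z (2 r))` given the past
  have a1 : CH q (z (2 * r)) (tup V z (2 * r)) =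
      CH q (fun w => M (z (2 * r) w)) (tup V z (2 * r)) +
      CH q (z (2 * r)) (fun w => (M (z (2 * r) w), tup V z (2 * r) w)) := by
    rw [← CH_chain hq]
    refine CH_congr hq ?_ ?_ (fun _ _ _ _ e => e) (fun _ _ _ _ e => e)
    · intro w w' _ _ e
      have e1 := (Prod.ext_iff.1 e).1
      simp only at e1
      exact Prod.ext e1 (by simp only [e1])
    · intro w w' _ _ e
      exact (Prod.ext_iff.1 (Prod.ext_iff.1 e).1).1
  have a2 : CH q (fun w => M (z (2 * r) w)) (tup V z (2 * r)) =
      CH q (fun w => M (z 0 w)) (tup V z (2 * r)) := by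
    refine CH_congr hq ?_ ?_ (fun _ _ _ _ e => e) (fun _ _ _ _ e => e)
    · intro w w' a b e
      have e1 := (Prod.ext_iff.1 e).1
      have e2 := (Prod.ext_iff.1 e).2
      have s1 := walk_sum h w a r hr
      have s2 := walk_sum h w' b r hr
      have s3 : ∑ i ∈ range r, (f (V (z (2 * i) w)) - f (V (z (2 * i + 1) w))) =
          ∑ i ∈ range r, (f (V (z (2 * i) w')) - f (V (z (2 * i + 1) w'))) := by
        refine Finset.sum_congr rfl fun i hi => ?_
        rw [Finset.mem_range] at hi
        have t1 := congrFun e2 ⟨2 * i, by omega⟩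
        have t2 := congrFun e2 ⟨2 * i + 1, by omega⟩
        simp only [tup] at t1 t2
        rw [t1, t2]
      simp only at e1
      rw [s1, s2, s3] at e1
      exact add_right_cancel e1
    · intro w w' a b e
      have e1 := (Prod.ext_iff.1 e).1
      have e2 := (Prod.ext_iff.1 e).2
      have s1 := walk_sum h w a r hr
      have s2 := walk_sum h w' b r hr
      have s3 : ∑ i ∈ range r, (f (V (z (2 * i) w)) - f (V (z (2 * i + 1) w))) =
          ∑ i ∈ range r, (f (V (z (2 * i) w')) - f (V (z (2 * i + 1) w'))) := by
        refine Finset.sum_congr rfl fun i hi => ?_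
        rw [Finset.mem_range] at hi
        have t1 := congrFun e2 ⟨2 * i, by omega⟩
        have t2 := congrFun e2 ⟨2 * i + 1, by omega⟩
        simp only [tup] at t1 t2
        rw [t1, t2]
      simp only at e1 ⊢
      rw [s1, s2, s3, e1]
  -- symmetry
  have a3 : CH q (fun w => M (z 0 w)) (tup V z (2 * r)) =
      H p M + CH q (tup V z (2 * r)) (fun w => M (z 0 w)) -
        CH q (tup V z (2 * r)) (fun _ => ()) := by
    have b1 := (h.marg 0 (Nat.zero_le n)).H M
    unfold CH
    rw [H_const h.isLaw.sum_one, sub_zero, ← b1]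
    have b2 : H q (fun w => (M (z 0 w), tup V z (2 * r) w)) =
        H q (fun w => (tup V z (2 * r) w, M (z 0 w))) := by
      refine H_congr hq ?_ ?_ <;>
      · intro w w' _ _ e
        have e1 := Prod.ext_iff.1 e
        exact Prod.ext e1.2 e1.1
    have b3 : H q (fun w => (tup V z (2 * r) w, ())) = H q (tup V z (2 * r)) := by
      refine H_congr hq ?_ ?_
      · intro w w' _ _ e
        exact Prod.ext e rfl
      · intro w w' _ _ e
        exact (Prod.ext_iff.1 e).1
    rw [b2, b3]
    ring
  have a4 := walk_indep h h1 h2 (2 * r) (by omega)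
  have a5 := tup_le h V (2 * r) (by omega)
  have a6 : CH p (fun ω => ω) M ≤
      CH q (z (2 * r)) (fun w => (M (z (2 * r) w), tup V z (2 * r) w)) := by
    rcases Nat.eq_zero_or_pos r with h0 | h0
    · subst h0
      have e1 : CH q (z (2 * 0)) (fun w => (M (z (2 * 0) w), tup V z (2 * 0) w)) =
          CH q (z 0) (fun w => M (z 0 w)) := by
        refine CH_congr hq (fun _ _ _ _ e => (Prod.ext_iff.1 e).1) (fun _ _ _ _ e =>
          (Prod.ext_iff.1 e).1) (fun _ _ _ _ e => (Prod.ext_iff.1 e).1) ?_
        intro w w' _ _ e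
        refine Prod.ext e ?_
        funext k
        exact k.elim0
      rw [e1]
      exact le_of_eq ((h.marg 0 (Nat.zero_le n)).CH (fun ω => ω) M).symm
    · obtain ⟨i, hi⟩ : ∃ i, 2 * r = i + 1 := ⟨2 * r - 1, by omega⟩
      rw [hi] at hr ⊢
      have e1 := walk_step h (fun ω => ω) i (by omega)
      have e2 : cw M (fun ω => M ω + f (V ω)) i = M := by
        funext ω
        unfold cw
        rw [if_neg (by omega)]
      rw [e2] at e1
      rw [← e1]
      refine CH_mono_cond hq ?_
      intro w w' a b e
      refine Prod.ext ?_ ?_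
      · have t1 := h.same w a i (by omega)
        have t2 := h.same w' b i (by omega)
        rw [e2] at t1 t2
        have t3 := congrFun e (Fin.last i)
        simp only [tup, Fin.val_last] at t3
        simp only
        rw [← t1, ← t2, t3]
      · funext k
        have := congrFun e k
        simp only [tup] at this ⊢
        rw [this]
  have a7 : CH p (fun ω => ω) M = H p (fun ω => ω) - H p M := by
    unfold CH
    congr 1
    refine H_congr hp.nonneg ?_ ?_
    · intro ω ω' _ _ e
      simp only at e
      rw [e]
    · intro ω ω' _ _ e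
      exact (Prod.ext_iff.1 e).1
  push_cast at a4 a5
  linarith

end

end Pool.DYN
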