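import Pool.Agent.H89.DYN.AbsB

/-!
# Absorbing a polynomial map (row 236)

`M` is a random integer vector (units `2 ^ (-X)`) of entropy at most `(c - c₀) X log 2`, which is
almost independent of `V`; the vector `M + Q_V (y_V)` is also almost independent of `V`, where `Q_V`
is a polynomial map and `y_V` is almost full given `Q_V`. Then there is a unit covector `N` such
that, with probability at least `exp (-δ X)`, all the coefficients of `N · Q_V` (except the constant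
one) are at most `exp (-h X)`.
-/

set_option autoImplicit false

namespace Pool.DYN

open Finset Real
open Pool.Agent.H49.Ent Pool.Agent.H32.Dense Pool.STK Pool.KS3 Pool.POLY
open Pool.BFL (MC Pb)

/-- The rank of the first `2 R` samples is not always full. -/
theorem abs_beta {c : ℕ} {c₀ δ₁ x₀ ε Cr CRR β X b smc R Rm Hm Hf l2 : ℝ} (hc₀ : 0 < c₀)
    (hl2h : 1 / 2 ≤ l2) (hX : 0 < X) (hβ1 : β ≤ 1) (hδ₁ : δ₁ = c₀ / (2 * (c + 1)))
    (hR0 : 0 ≤ R) (hR : R ≤ Rm) (hε : 0 < ε) (hε1 : ε * (64 * Rm) ≤ c₀)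
    (hε2 : ε * (64 * Cr) ≤ c₀) (hCRR : 0 ≤ CRR) (hCR : CRR ≤ Cr) (hb0 : 0 ≤ b) (hsm0 : 0 ≤ smc)
    (hb : b ≤ 2 * (ε * X) + 1) (hsm : smc ≤ 4 ^ c * (x₀ * X))
    (hx₀e : x₀ * (16 * 4 ^ c * Cr) = c₀) (hXb : 64 * Cr ≤ c₀ * X)
    (hM : Hm ≤ (c - c₀) * (X * l2)) (hf : Hf ≤ 2 * (ε * X))
    (key : c * X * β * l2 ≤ Hm + 2 * R * Hf + CRR * (b + smc + 1)) : β ≤ 1 - δ₁ := by
  have hc0 : (0 : ℝ) ≤ c := Nat.cast_nonneg _
  have hX0 := hX.le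
  have hεX : 0 ≤ ε * X := by positivity
  have e1 : 2 * R * Hf ≤ c₀ * X / 16 := by
    have t2 : 2 * R * Hf ≤ 2 * R * (2 * (ε * X)) := mul_le_mul_of_nonneg_left hf (by positivity)
    have t3 : 2 * R * (2 * (ε * X)) ≤ 2 * Rm * (2 * (ε * X)) :=
      mul_le_mul_of_nonneg_right (by linarith) (by positivity)
    have t4 := mul_le_mul_of_nonneg_right hε1 hX0
    linarith
  have e2 : CRR * (b + smc + 1) ≤ c₀ * X / 8 := by
    have t2 : CRR * (b + smc + 1) ≤ Cr * (2 * (ε * X) + 2 + 4 ^ c * (x₀ * X)) := by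
      refine mul_le_mul hCR (by linarith) (by positivity) (by linarith)
    have t3 := mul_le_mul_of_nonneg_right hε2 hX0
    have t4 : Cr * (4 ^ c * (x₀ * X)) * 16 = c₀ * X := by rw [← hx₀e]; ring
    linarith
  have e3 : c₀ * X / 16 + c₀ * X / 8 ≤ c₀ / 2 * (X * l2) := by
    have t1 : c₀ / 2 * (X * (1 / 2)) ≤ c₀ / 2 * (X * l2) :=
      mul_le_mul_of_nonneg_left (mul_le_mul_of_nonneg_left hl2h hX0) (by positivity)
    have t2 : 0 ≤ c₀ * X := by positivity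
    linarith
  have hXpos : 0 < X * l2 := mul_pos hX (by linarith)
  have e4 : c * β * (X * l2) ≤ (c - c₀ / 2) * (X * l2) := by
    have e5 : c * β * (X * l2) = c * X * β * l2 := by ring
    rw [e5]
    linarith
  have e5 := le_of_mul_le_mul_right e4 hXpos
  have e7 : δ₁ ≤ 1 - β := by
    rw [hδ₁, div_le_iff₀ (by positivity)]
    have e8 : c * (1 - β) ≤ (c + 1) * (1 - β) :=
      mul_le_mul_of_nonneg_right (by linarith) (by linarith)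
    linarith
  linarith

/-- The core, with explicit parameters. -/
theorem abs_core (c d K : ℕ) (CR : ℕ → ℝ) (hCR1 : ∀ R, 1 ≤ CR R)
    (hCR : ∀ R, ∀ (Ω 𝒱 W : Type) [Fintype Ω] [Fintype W]
      (p : Ω → ℝ) (X b s n : ℕ) (M : Ω → Fin c → ℤ) (V : Ω → 𝒱)
      (Q : 𝒱 → Fin c → MvPolynomial (Fin d) ℝ) (y : 𝒱 → Fin d → ℤ) (q : W → ℝ) (z : ℕ → W → Ω)
      (ε : ℝ), IsLaw p → 2 * R ≤ n →
      (∀ v i, (Q v i).totalDegree ≤ K) → (∀ v i m, |MvPolynomial.coeff m (Q v i)| ≤ 2 ^ b) →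
      (∀ ω, 0 < p ω → ∀ j, |((y (V ω) j : ℤ) : ℝ)| ≤ 2 ^ X) →
      H p V - ε ≤ CH p V M → H p V - ε ≤ CH p V (fun ω => M ω + fl X Q y (V ω)) →
      MC p (cw M (fun ω => M ω + fl X Q y (V ω))) n q z →
      c * X * Ex q (fun w => in1 (∃ (κ : Fin c → Fin (2 * R) × Fin d) (ρ : Fin c → Fin c),
        (1 / 2) ^ s ≤ |(Matrix.of fun a b => gv X Q y (V (z (κ a).1 w)) (κ a).2 (ρ b)).det|)) *
        Real.log 2 ≤
        H p M + 2 * R * (d * (X * Real.log 2) - CH p (fun ω => y (V ω)) (fun ω => Q (V ω)) + ε) +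
          CR R * (b + s + 1))
    (Cb : ℕ) (hCb : ∀ (W S : Type) [Fintype W] (q : W → ℝ)
      (X s b : ℕ) (y : W → Fin d → ℤ) (A : W → S) (F : W → Fin c → MvPolynomial (Fin d) ℝ)
      (N : S → Fin c → ℝ) (e : ℝ),
      IsLaw q → 0 ≤ e → Cb ≤ s → 2 * s ≤ X → (∀ w, 0 < q w → ∀ i, |((y w i : ℤ) : ℝ)| ≤ 2 ^ X) →
      (∀ w i, (F w i).totalDegree ≤ K) → (∀ w i m, |MvPolynomial.coeff m (F w i)| ≤ 2 ^ b) →
      d * (X * Real.log 2) - e ≤ CH q y (fun w => (A w, F w)) → ∀ j,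
      s * Ex q (fun w => in1 (Bad X s (F w) (N (A w)) (y w) j)) ≤ Cb * (e + 1))
    {c₀ δ δ₁ x₀ ε Cr : ℝ} (Rm : ℕ) (hRm : 1 ≤ Rm) (hc₀ : 0 < c₀) (hδ₁ : δ₁ = c₀ / (2 * (c + 1)))
    (hcR : (c : ℝ) / Rm ≤ δ₁ / 4) (hCrR : ∀ R < Rm, CR R ≤ Cr) (hx₀0 : 0 < x₀)
    (hx₀e : x₀ * (16 * 4 ^ c * Cr) = c₀) (hx₀1 : x₀ ≤ 1 / 16) (hε0 : 0 < ε)
    (hε1 : ε * (64 * Rm) ≤ c₀) (hε2 : ε * (64 * Cr) ≤ c₀)
    (hε3 : ε * (32 * Cb * (d + 1)) ≤ δ₁ * x₀) (hε4 : ε * (8 * Rm) ≤ δ * (δ₁ / 2)) (X : ℕ)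
    (hXa : 2 * (Cb + 2) ≤ x₀ * X) (hXb : 64 * Cr ≤ c₀ * X)
    (hXc : 16 * Cb * (d + 1) ≤ δ₁ * x₀ * X) (hXd : 8 ≤ δ * (δ₁ / 2) * X)
    (Ω 𝒱 : Type) [Fintype Ω]
    (p : Ω → ℝ) (M : Ω → Fin c → ℤ) (V : Ω → 𝒱) (Q : 𝒱 → Fin c → MvPolynomial (Fin d) ℝ)
    (y : 𝒱 → Fin d → ℤ) (hp : IsLaw p) (hdeg : ∀ v i, (Q v i).totalDegree ≤ K)
    (hcoeff : ∀ v i m, |MvPolynomial.coeff m (Q v i)| ≤ Real.exp (ε * X))
    (hy : ∀ ω, 0 < p ω → ∀ j, |((y (V ω) j : ℤ) : ℝ)| ≤ 2 ^ X)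
    (h1 : H p V - ε * X ≤ CH p V M)
    (h2 : H p V - ε * X ≤ CH p V (fun ω => M ω + fl X Q y (V ω)))
    (hfull : d * (X * Real.log 2) - ε * X ≤ CH p (fun ω => y (V ω)) (fun ω => Q (V ω)))
    (hM : H p M ≤ (c - c₀) * (X * Real.log 2)) :
    ∃ N : Fin c → ℝ, (∀ i, |N i| ≤ 1) ∧ (∃ i, |N i| = 1) ∧
      Real.exp (-(δ * X)) ≤ Pb p (fun ω => ∀ m, m ≠ 0 →
        |MvPolynomial.coeff m (∑ i, MvPolynomial.C (N i) * Q (V ω) i)| ≤
          Real.exp (-(x₀ / 4 * X))) := by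
  classical
  have hl2 : 0 < Real.log 2 := Real.log_pos (by norm_num)
  have hl2' : Real.log 2 ≤ 1 := by linarith [Real.log_two_lt_d9]
  have hl2h : 1 / 2 ≤ Real.log 2 := by linarith [Real.log_two_gt_d9]
  have hX0 : (0 : ℝ) ≤ X := Nat.cast_nonneg _
  have hc0 : (0 : ℝ) ≤ c := Nat.cast_nonneg _
  have hCb0 : (0 : ℝ) ≤ Cb := Nat.cast_nonneg _
  have hd0 : (0 : ℝ) ≤ d := Nat.cast_nonneg _
  have hδ₁0 : 0 < δ₁ := by rw [hδ₁]; positivity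
  have hXpos : (0 : ℝ) < X := by
    by_contra hcon
    push Not at hcon
    have : (X : ℝ) = 0 := le_antisymm hcon hX0
    rw [this] at hXd
    linarith
  -- digits
  obtain ⟨s, hs1, hs2⟩ : ∃ s : ℕ, (s : ℝ) ≤ x₀ * X ∧ x₀ * X - 1 ≤ s := by
    refine ⟨⌊x₀ * X⌋₊, Nat.floor_le (by positivity), ?_⟩
    have := Nat.lt_floor_add_one (x₀ * X)
    linarith
  have hs3 : x₀ * X / 2 ≤ s := by linarith
  have hsCb : Cb ≤ s := by
    have : (Cb : ℝ) ≤ s := by linarith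
    exact_mod_cast this
  have hsX : 2 * s ≤ X := by
    have : 2 * (s : ℝ) ≤ X := by
      have e1 : x₀ * X ≤ 1 / 16 * X := mul_le_mul_of_nonneg_right hx₀1 hX0
      linarith
    exact_mod_cast this
  obtain ⟨b, hb1, hb2⟩ : ∃ b : ℕ, Real.exp (ε * X) ≤ 2 ^ b ∧ (b : ℝ) ≤ 2 * (ε * X) + 1 := by
    refine ⟨⌈ε * X / Real.log 2⌉₊, ?_, ?_⟩
    · have e1 : ε * X ≤ ⌈ε * X / Real.log 2⌉₊ * Real.log 2 := by
        have := Nat.le_ceil (ε * X / Real.log 2)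
        rw [div_le_iff₀ hl2] at this
        exact this
      calc Real.exp (ε * X) ≤ Real.exp (⌈ε * X / Real.log 2⌉₊ * Real.log 2) :=
            Real.exp_le_exp.mpr e1
        _ = 2 ^ ⌈ε * X / Real.log 2⌉₊ := by rw [Real.exp_nat_mul, Real.exp_log (by norm_num)]
    · have e1 := (Nat.ceil_lt_add_one (show 0 ≤ ε * X / Real.log 2 by positivity)).le
      have e2 : ε * X / Real.log 2 ≤ 2 * (ε * X) := by
        rw [div_le_iff₀ hl2]
        have e3 : 2 * (ε * X) * (1 / 2) ≤ 2 * (ε * X) * Real.log 2 :=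
          mul_le_mul_of_nonneg_left hl2h (by positivity)
        linarith
      linarith
  have hcoeff' : ∀ v i m, |MvPolynomial.coeff m (Q v i)| ≤ 2 ^ b := fun v i m =>
    (hcoeff v i m).trans hb1
  have hεX : 0 ≤ ε * X := by positivity
  -- the walk
  obtain ⟨W, _, q, z, hMC⟩ := Pool.Agent.H67.BFL.mch_thm Ω (Fin c → ℤ) p
    (cw M (fun ω => M ω + fl X Q y (V ω))) (2 * Rm + 1) hp
  have hq := hMC.isLaw.nonneg
  have hq1 := hMC.isLaw.sum_one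
  obtain ⟨R, hR, hfR⟩ := pig (fun L => Ex q (fun w => (rkT X s Q y L (tup V z L w) : ℝ))) c Rm
    hRm (by
      intro L
      refine Ex_mono hq fun w _ => ?_
      have t1 : ∀ k : Fin L, tup V z L w k = tup V z (L + 1) w (Fin.castLE (Nat.le_succ L) k) :=
        fun _ => rfl
      have t2 : rkT X s Q y L (tup V z L w) ≤ rkT X s Q y (L + 1) (tup V z (L + 1) w) :=
        rkT_mono (Nat.le_succ L) (tup V z L w) (tup V z (L + 1) w) t1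
      exact_mod_cast t2)
    (Ex_nonneg hq fun w _ => Nat.cast_nonneg _) (by
      have e1 : Ex q (fun w => (rkT X s Q y (2 * Rm) (tup V z (2 * Rm) w) : ℝ)) ≤
          Ex q (fun _ => (c : ℝ)) := Ex_mono hq fun w _ => by
            have t2 : rkT X s Q y (2 * Rm) (tup V z (2 * Rm) w) ≤ c := rkT_le _ _
            exact_mod_cast t2
      rw [Ex_const hq1] at e1
      exact e1)
  have hR' : (R : ℝ) ≤ Rm := by exact_mod_cast hR.le
  have hR0 : (0 : ℝ) ≤ R := Nat.cast_nonneg _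
  have hmg := hMC.marg (2 * R) (by omega)
  -- the rank is not full
  have hβ1 : Ex q (fun w => in1 (BgT X s Q y (2 * R) c (tup V z (2 * R) w))) ≤ 1 - δ₁ := by
    have e6 : Ex q (fun w => in1 (BgT X s Q y (2 * R) c (tup V z (2 * R) w))) ≤ 1 := by
      have t1 := Ex_mono hq (f := fun w => in1 (BgT X s Q y (2 * R) c (tup V z (2 * R) w)))
        (g := fun _ => (1 : ℝ)) fun ω _ => in1_le_one _
      rw [Ex_const hq1] at t1
      exact t1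
    have key := hCR R Ω 𝒱 W p X b (sm s c) (2 * Rm + 1) M V Q y q z (ε * X) hp (by omega) hdeg
      hcoeff' hy h1 h2 hMC
    change c * X * Ex q (fun w => in1 (BgT X s Q y (2 * R) c (tup V z (2 * R) w))) *
      Real.log 2 ≤ _ at key
    have hsm : ((sm s c : ℕ) : ℝ) ≤ 4 ^ c * (x₀ * X) := by
      have t2 : ((sm s c : ℕ) : ℝ) ≤ 4 ^ c * s := by exact_mod_cast sm_le s c
      exact t2.trans (mul_le_mul_of_nonneg_left hs1 (by positivity))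
    refine abs_beta (c := c) (ε := ε) (b := b) hc₀ hl2h hXpos e6 hδ₁ hR0 hR' hε0 hε1 hε2
      (by linarith [hCR1 R]) (hCrR R hR) (Nat.cast_nonneg _) (Nat.cast_nonneg _) hb2 hsm hx₀e hXb
      hM ?_ key
    linarith
  -- the covector
  have hcov : ∀ T : Fin (2 * R) → 𝒱, ∃ N : Fin c → ℝ, rkT X s Q y (2 * R) T < c →
      (∀ i, |N i| ≤ 1) ∧ (∃ i, |N i| = 1) ∧ ∀ (v : 𝒱) (j : Fin d),
      rkT X s Q y (2 * R + 1) (Fin.snoc T v : Fin (2 * R + 1) → 𝒱) = rkT X s Q y (2 * R) T →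
      |∑ i, N i * gv X Q y v j i| ≤ (1 / 2) ^ (3 * s) := by
    intro T
    by_cases h : rkT X s Q y (2 * R) T < c
    · obtain ⟨N, hN⟩ := cov_exists (2 * R) T h
      exact ⟨N, fun _ => hN⟩
    · exact ⟨0, fun h' => absurd h' h⟩
  choose N hN using hcov
  -- Remez
  have hyfull : d * (X * Real.log 2) - 2 * (ε * X) ≤ CH q (fun w => y (V (z (2 * R) w)))
      (fun w => (tup V z (2 * R) w, Q (V (z (2 * R) w)))) := by
    have e1 := v_past hMC hεX h1 R (by omega)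
    have e2 := y_full hp hMC.isLaw hmg V (fun ω => y (V ω))
      (fun ω => Q (V ω)) (fun _ _ _ _ e => congrArg y e) (fun _ _ _ _ e => congrArg Q e)
      (tup V z (2 * R)) e1
    linarith
  have hbadP : ∀ j, s * Ex q (fun w => in1 (Bad X s (Q (V (z (2 * R) w)))
      (N (tup V z (2 * R) w)) (y (V (z (2 * R) w))) j)) ≤ Cb * (2 * (ε * X) + 1) := by
    intro j
    exact hCb W (Fin (2 * R) → 𝒱) q X s b (fun w => y (V (z (2 * R) w))) (tup V z (2 * R))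
      (fun w => Q (V (z (2 * R) w))) N (2 * (ε * X)) hMC.isLaw (by positivity) hsCb hsX
      (fun w hw i => hy _ (hmg.pos hq hw) i) (fun w i => hdeg _ i) (fun w i => hcoeff' _ i)
      hyfull j
  have hbadS : ∑ j, Ex q (fun w => in1 (Bad X s (Q (V (z (2 * R) w)))
      (N (tup V z (2 * R) w)) (y (V (z (2 * R) w))) j)) ≤ δ₁ / 4 := by
    have e1 : (s : ℝ) * ∑ j, Ex q (fun w => in1 (Bad X s (Q (V (z (2 * R) w)))
        (N (tup V z (2 * R) w)) (y (V (z (2 * R) w))) j)) ≤ d * (Cb * (2 * (ε * X) + 1)) := by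
      rw [Finset.mul_sum]
      refine (Finset.sum_le_sum fun j _ => hbadP j).trans (le_of_eq ?_)
      rw [Finset.sum_const, Finset.card_univ, Fintype.card_fin, nsmul_eq_mul]
    have hs0 : 0 < (s : ℝ) := by linarith
    have e2 : (d : ℝ) * (Cb * (2 * (ε * X) + 1)) ≤ s * (δ₁ / 4) := by
      have t1 : x₀ * X / 2 * (δ₁ / 4) ≤ s * (δ₁ / 4) :=
        mul_le_mul_of_nonneg_right hs3 (by positivity)
      have t2 := mul_le_mul_of_nonneg_right hε3 hX0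
      have t3 : 0 ≤ (Cb : ℝ) * (ε * X) := by positivity
      have t4 : 0 ≤ (d : ℝ) * (Cb : ℝ) := by positivity
      have t5 : 0 ≤ (Cb : ℝ) * (ε * X) * d := by positivity
      linarith
    exact le_of_mul_le_mul_left (e1.trans e2) hs0
  -- the event
  have hPB : δ₁ / 2 ≤ Pb q (fun w => rkT X s Q y (2 * R) (tup V z (2 * R) w) < c ∧
      Good s (Q (V (z (2 * R) w))) (N (tup V z (2 * R) w))) := by
    have e0 : ∀ w, tup V z (2 * R + 1) w =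
        (Fin.snoc (tup V z (2 * R) w) (V (z (2 * R) w)) : Fin (2 * R + 1) → 𝒱) := by
      intro w
      funext k
      refine Fin.lastCases ?_ (fun k => ?_) k
      · rw [Fin.snoc_last]
        rfl
      · rw [Fin.snoc_castSucc]
        rfl
    have e1 := Ex_mono hq (f := fun _ => (1 : ℝ)) fun w _ => abs_pt X s Q y (2 * R)
      (tup V z (2 * R) w) (V (z (2 * R) w)) (N (tup V z (2 * R) w))
      (fun k2 k1 j => (hN _ k2).2.2 (V (z (2 * R) w)) j k1)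
    rw [Ex_const hq1, Ex_add, Ex_add, Ex_add, Ex_sub] at e1
    have e2 : Ex q (fun w => ∑ j, in1 (Bad X s (Q (V (z (2 * R) w)))
        (N (tup V z (2 * R) w)) (y (V (z (2 * R) w))) j)) =
        ∑ j, Ex q (fun w => in1 (Bad X s (Q (V (z (2 * R) w)))
        (N (tup V z (2 * R) w)) (y (V (z (2 * R) w))) j)) := by
      unfold Ex
      rw [Finset.sum_comm]
      refine Finset.sum_congr rfl fun w _ => ?_
      rw [Finset.mul_sum]
    rw [e2] at e1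
    rw [Pb_eq_Ex]
    have e3 : Ex q (fun w => (rkT X s Q y (2 * R + 1) (tup V z (2 * R + 1) w) : ℝ)) -
      Ex q (fun w => (rkT X s Q y (2 * R) (tup V z (2 * R) w) : ℝ)) ≤ δ₁ / 4 := hfR.trans hcR
    simp only [e0] at e3
    linarith
  obtain ⟨w, hw, hBw, hPw⟩ := sub_event hp hMC.isLaw hmg
    (tup V z (2 * R)) (fun T ω => rkT X s Q y (2 * R) T < c ∧ Good s (Q (V ω)) (N T))
    (walk_past hp hMC h1 h2 R (by omega)) hPB (by linarith)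
  refine ⟨N (tup V z (2 * R) w), (hN _ hBw.1).1, (hN _ hBw.1).2.1, ?_⟩
  refine le_trans ?_ (hPw.trans (Pb_le hp.nonneg ?_))
  · refine Real.exp_le_exp.mpr (neg_le_neg ?_)
    rw [div_le_iff₀ (by linarith)]
    have t1 := mul_le_mul_of_nonneg_right hε4 hX0
    have t2 : 2 * (R : ℝ) * (ε * X) ≤ 2 * Rm * (ε * X) :=
      mul_le_mul_of_nonneg_right (by linarith) hεX
    linarith
  · intro ω hω m hm
    refine (abs_good hω.2 m hm).trans ?_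
    have e2 : ((1 : ℝ) / 2) ^ s = Real.exp (-(s * Real.log 2)) := by
      rw [Real.exp_neg, Real.exp_nat_mul, Real.exp_log (by norm_num), one_div, inv_pow]
    rw [e2]
    refine Real.exp_le_exp.mpr (neg_le_neg ?_)
    have e3 : x₀ * X / 2 * (1 / 2) ≤ s * Real.log 2 :=
      mul_le_mul hs3 hl2h (by norm_num) (Nat.cast_nonneg _)
    linarith

/-- **Absorbing a polynomial map**, `c₀ ≤ 1`. -/
theorem abs_aux (c d K : ℕ) (c₀ δ : ℝ) (hc₀ : 0 < c₀) (hc₀1 : c₀ ≤ 1) (hδ : 0 < δ) :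
    ∃ (h ε : ℝ), 0 < h ∧ 0 < ε ∧ ∃ X₀ : ℕ, ∀ X : ℕ, X₀ ≤ X → ∀ (Ω 𝒱 : Type) [Fintype Ω]
      (p : Ω → ℝ) (M : Ω → Fin c → ℤ) (V : Ω → 𝒱) (Q : 𝒱 → Fin c → MvPolynomial (Fin d) ℝ)
      (y : 𝒱 → Fin d → ℤ), IsLaw p → (∀ v i, (Q v i).totalDegree ≤ K) →
      (∀ v i m, |MvPolynomial.coeff m (Q v i)| ≤ Real.exp (ε * X)) →
      (∀ ω, 0 < p ω → ∀ j, |((y (V ω) j : ℤ) : ℝ)| ≤ 2 ^ X) →
      H p V - ε * X ≤ CH p V M →
      H p V - ε * X ≤ CH p V (fun ω => M ω + fl X Q y (V ω)) →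
      d * (X * Real.log 2) - ε * X ≤ CH p (fun ω => y (V ω)) (fun ω => Q (V ω)) →
      H p M ≤ (c - c₀) * (X * Real.log 2) →
      ∃ N : Fin c → ℝ, (∀ i, |N i| ≤ 1) ∧ (∃ i, |N i| = 1) ∧
        Real.exp (-(δ * X)) ≤ Pb p (fun ω => ∀ m, m ≠ 0 →
          |MvPolynomial.coeff m (∑ i, MvPolynomial.C (N i) * Q (V ω) i)| ≤
            Real.exp (-(h * X))) := by
  classical
  choose CR hCR1 hCR using fun R => rank_ent R c d K
  obtain ⟨Cb, hCb1, hCb⟩ := abs_rem c d K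
  have hCb1' : (1 : ℝ) ≤ Cb := by exact_mod_cast hCb1
  have hc0 : (0 : ℝ) ≤ c := Nat.cast_nonneg _
  have hd0 : (0 : ℝ) ≤ d := Nat.cast_nonneg _
  -- the parameters
  obtain ⟨δ₁, hδ₁⟩ : ∃ δ₁ : ℝ, δ₁ = c₀ / (2 * (c + 1)) := ⟨_, rfl⟩
  have hδ₁0 : 0 < δ₁ := by rw [hδ₁]; positivity
  obtain ⟨Rm, hRm1, hRm2⟩ : ∃ Rm : ℕ, 1 ≤ Rm ∧ 4 * c / δ₁ ≤ (Rm : ℝ) := by
    refine ⟨⌈4 * c / δ₁⌉₊ + 1, by omega, ?_⟩
    push_cast
    have := Nat.le_ceil (4 * c / δ₁)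
    linarith
  have hRm1' : (1 : ℝ) ≤ Rm := by exact_mod_cast hRm1
  have hcR : (c : ℝ) / Rm ≤ δ₁ / 4 := by
    rw [div_le_iff₀ hδ₁0] at hRm2
    rw [div_le_iff₀ (by linarith)]
    linarith
  obtain ⟨Cr, hCr1, hCrR⟩ : ∃ Cr : ℝ, 1 ≤ Cr ∧ ∀ R < Rm, CR R ≤ Cr := by
    refine ⟨1 + ∑ R ∈ range Rm, CR R, ?_, ?_⟩
    · have : 0 ≤ ∑ R ∈ range Rm, CR R := Finset.sum_nonneg fun R _ => by linarith [hCR1 R]
      linarith
    · intro R hR
      have := Finset.single_le_sum (f := CR) (fun R _ => by linarith [hCR1 R])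
        (Finset.mem_range.2 hR)
      linarith
  have h4c : (1 : ℝ) ≤ 4 ^ c := one_le_pow₀ (by norm_num)
  obtain ⟨x₀, hx₀0, hx₀e⟩ : ∃ x₀ : ℝ, 0 < x₀ ∧ x₀ * (16 * 4 ^ c * Cr) = c₀ := by
    refine ⟨c₀ / (16 * 4 ^ c * Cr), by positivity, ?_⟩
    field_simp
  have hx₀1 : x₀ ≤ 1 / 16 := by
    have e1 : x₀ * 16 ≤ x₀ * (16 * 4 ^ c * Cr) := by
      refine mul_le_mul_of_nonneg_left ?_ hx₀0.le
      have e2 : (1 : ℝ) ≤ 4 ^ c * Cr := one_le_mul_of_one_le_of_one_le h4c hCr1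
      linarith
    linarith
  obtain ⟨ε, hε0, hε1, hε2, hε3, hε4⟩ : ∃ ε : ℝ, 0 < ε ∧ ε * (64 * Rm) ≤ c₀ ∧
      ε * (64 * Cr) ≤ c₀ ∧ ε * (32 * Cb * (d + 1)) ≤ δ₁ * x₀ ∧
      ε * (8 * Rm) ≤ δ * (δ₁ / 2) := by
    refine ⟨min (min (c₀ / (64 * Rm)) (c₀ / (64 * Cr)))
      (min (δ₁ * x₀ / (32 * Cb * (d + 1))) (δ * (δ₁ / 2) / (8 * Rm))), ?_, ?_, ?_, ?_, ?_⟩
    · refine lt_min (lt_min ?_ ?_) (lt_min ?_ ?_) <;> positivity
    · rw [← le_div_iff₀ (by positivity)]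
      exact (min_le_left _ _).trans (min_le_left _ _)
    · rw [← le_div_iff₀ (by positivity)]
      exact (min_le_left _ _).trans (min_le_right _ _)
    · rw [← le_div_iff₀ (by positivity)]
      exact (min_le_right _ _).trans (min_le_left _ _)
    · rw [← le_div_iff₀ (by positivity)]
      exact (min_le_right _ _).trans (min_le_right _ _)
  refine ⟨x₀ / 4, ε, by positivity, hε0, ⌈2 * (Cb + 2) / x₀ + 64 * Cr / c₀ +
    16 * Cb * (d + 1) / (δ₁ * x₀) + 8 / (δ * (δ₁ / 2))⌉₊, ?_⟩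
  intro X hX Ω 𝒱 _ p M V Q y hp hdeg hcoeff hy h1 h2 hfull hM
  have hXG : 2 * (Cb + 2) / x₀ + 64 * Cr / c₀ +
    16 * Cb * (d + 1) / (δ₁ * x₀) + 8 / (δ * (δ₁ / 2)) ≤ (X : ℝ) :=
    (Nat.le_ceil _).trans (by exact_mod_cast hX)
  have t1 : (0 : ℝ) ≤ 64 * Cr / c₀ := by positivity
  have t2 : (0 : ℝ) ≤ 16 * Cb * (d + 1) / (δ₁ * x₀) := by positivity
  have t3 : (0 : ℝ) ≤ 8 / (δ * (δ₁ / 2)) := by positivity
  have t4 : (0 : ℝ) ≤ 2 * (Cb + 2) / x₀ := by positivity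
  have hXa : 2 * (Cb + 2) ≤ x₀ * X := by
    have e1 : 2 * (Cb + 2) / x₀ ≤ X := by linarith
    rw [div_le_iff₀ hx₀0] at e1
    linarith
  have hXb : 64 * Cr ≤ c₀ * X := by
    have e1 : 64 * Cr / c₀ ≤ X := by linarith
    rw [div_le_iff₀ hc₀] at e1
    linarith
  have hXc : 16 * Cb * (d + 1) ≤ δ₁ * x₀ * X := by
    have e1 : 16 * Cb * (d + 1) / (δ₁ * x₀) ≤ X := by linarith
    rw [div_le_iff₀ (by positivity)] at e1
    linarith
  have hXd : 8 ≤ δ * (δ₁ / 2) * X := by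
    have e1 : 8 / (δ * (δ₁ / 2)) ≤ X := by linarith
    rw [div_le_iff₀ (by positivity)] at e1
    linarith
  exact abs_core c d K CR hCR1 hCR Cb hCb Rm hRm1 hc₀ hδ₁ hcR hCrR hx₀0 hx₀e hx₀1 hε0 hε1 hε2
    hε3 hε4 X hXa hXb hXc hXd Ω 𝒱 p M V Q y hp hdeg hcoeff hy h1 h2 hfull hM

/-- **Absorbing a polynomial map.** -/
theorem abs_thm (c d K : ℕ) (c₀ δ : ℝ) (hc₀ : 0 < c₀) (hδ : 0 < δ) :
    ∃ (h ε : ℝ), 0 < h ∧ 0 < ε ∧ ∃ X₀ : ℕ, ∀ X : ℕ, X₀ ≤ X → ∀ (Ω 𝒱 : Type) [Fintype Ω]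
      (p : Ω → ℝ) (M : Ω → Fin c → ℤ) (V : Ω → 𝒱) (Q : 𝒱 → Fin c → MvPolynomial (Fin d) ℝ)
      (y : 𝒱 → Fin d → ℤ), IsLaw p → (∀ v i, (Q v i).totalDegree ≤ K) →
      (∀ v i m, |MvPolynomial.coeff m (Q v i)| ≤ Real.exp (ε * X)) →
      (∀ ω, 0 < p ω → ∀ j, |((y (V ω) j : ℤ) : ℝ)| ≤ 2 ^ X) →
      H p V - ε * X ≤ CH p V M →
      H p V - ε * X ≤ CH p V (fun ω => M ω + fl X Q y (V ω)) →
      d * (X * Real.log 2) - ε * X ≤ CH p (fun ω => y (V ω)) (fun ω => Q (V ω)) →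
      H p M ≤ (c - c₀) * (X * Real.log 2) →
      ∃ N : Fin c → ℝ, (∀ i, |N i| ≤ 1) ∧ (∃ i, |N i| = 1) ∧
        Real.exp (-(δ * X)) ≤ Pb p (fun ω => ∀ m, m ≠ 0 →
          |MvPolynomial.coeff m (∑ i, MvPolynomial.C (N i) * Q (V ω) i)| ≤
            Real.exp (-(h * X))) := by
  obtain ⟨h, ε, hh, hε, X₀, hX₀⟩ := abs_aux c d K (min c₀ 1) δ (lt_min hc₀ one_pos)
    (min_le_right _ _) hδ
  refine ⟨h, ε, hh, hε, X₀, ?_⟩
  intro X hX Ω 𝒱 _ p M V Q y hp hdeg hcoeff hy h1 h2 hfull hM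
  refine hX₀ X hX Ω 𝒱 p M V Q y hp hdeg hcoeff hy h1 h2 hfull (hM.trans ?_)
  refine mul_le_mul_of_nonneg_right ?_ (mul_nonneg (Nat.cast_nonneg _)
    (Real.log_nonneg (by norm_num)))
  have := min_le_left c₀ 1
  linarith

end Pool.DYN
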