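import Pool.Agent.H19.BFL.Stmts
import Pool.Agent.H32.Dense.Marg

/-!
# A copy which is almost independent of `A`

If `z` is a copy of the sample which is almost independent of `A`, and `z` lies in an event which
depends on `A`, with probability `η`, then one of these events has probability at least
`exp (-(δ + 2) / η)`.
-/

set_option autoImplicit false

namespace Pool.DYN

open Finset Real
open Pool.Agent.H49.Ent Pool.Agent.H32.Dense Pool.STK Pool.KS3
open Pool.BFL (Pb)

theorem Pb_nonneg {W : Type} [Fintype W] {q : W → ℝ} (hq : ∀ w, 0 ≤ q w) (A : W → Prop) :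
    0 ≤ Pb q A := by
  classical
  unfold Pb
  exact Finset.sum_nonneg fun w _ => by split_ifs; exacts [hq w, le_rfl]

/-- **An event which does not depend on `A`.** -/
theorem sub_event {Ω W S : Type} [Fintype Ω] [Fintype W] {p : Ω → ℝ} {q : W → ℝ} (hp : IsLaw p)
    (hq : IsLaw q) {z : W → Ω} (hz : Marg q p z) (A : W → S) (B : S → Ω → Prop) {δ η : ℝ}
    (h1 : H p (fun ω => ω) - δ ≤ CH q z A) (h2 : η ≤ Pb q (fun w => B (A w) (z w)))
    (hη : 0 < η) :
    ∃ w, 0 < q w ∧ B (A w) (z w) ∧ Real.exp (-((δ + 2) / η)) ≤ Pb p (B (A w)) := by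
  classical
  by_contra hcon
  push Not at hcon
  set β : ℝ := Real.exp (-((δ + 2) / η)) with hβ
  have hβ0 : 0 < β := Real.exp_pos _
  have hl2 : 0 < Real.log 2 := Real.log_pos (by norm_num)
  have hl2' : Real.log 2 ≤ 1 := by linarith [Real.log_two_lt_d9]
  -- positivity of `Pb p (B (A w))` on the event
  have hpos : ∀ w, 0 < q w → B (A w) (z w) → 0 < Pb p (B (A w)) := by
    intro w hw hB
    have h3 : 0 < p (z w) := hz.pos hq.nonneg hw
    unfold Pb
    refine lt_of_lt_of_le h3 ?_
    have := Finset.single_le_sum (f := fun ω => if B (A w) ω then p ω else 0)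
      (fun i _ => by split_ifs; exacts [hp.nonneg i, le_rfl]) (Finset.mem_univ (z w))
    simpa [hB] using this
  -- the test density
  have h3 := CH_le_cross hq.nonneg hq.sum_one z A
    (fun a ω => p ω / 2 + if B a ω then p ω / (2 * Pb p (B a)) else 0)
    (by
      intro w hw
      have h4 : 0 < p (z w) := hz.pos hq.nonneg hw
      have h5 : 0 ≤ if B (A w) (z w) then p (z w) / (2 * Pb p (B (A w))) else 0 := by
        split_ifs with h
        · exact div_nonneg h4.le (by have := Pb_nonneg hp.nonneg (B (A w)); linarith)
        · exact le_rfl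
      linarith)
    (by
      intro a ω
      have h5 : 0 ≤ if B a ω then p ω / (2 * Pb p (B a)) else 0 := by
        split_ifs with h
        · exact div_nonneg (hp.nonneg ω) (by have := Pb_nonneg hp.nonneg (B a); linarith)
        · exact le_rfl
      have := hp.nonneg ω
      linarith)
    (by
      intro w hw F
      have h4 : ∑ ω ∈ F, (p ω / 2 + if B (A w) ω then p ω / (2 * Pb p (B (A w))) else 0) ≤
          ∑ ω, (p ω / 2 + if B (A w) ω then p ω / (2 * Pb p (B (A w))) else 0) := by
        refine Finset.sum_le_sum_of_subset_of_nonneg (Finset.subset_univ _) ?_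
        intro ω _ _
        have h5 : 0 ≤ if B (A w) ω then p ω / (2 * Pb p (B (A w))) else 0 := by
          split_ifs with h
          · exact div_nonneg (hp.nonneg ω) (by
              have := Pb_nonneg hp.nonneg (B (A w)); linarith)
          · exact le_rfl
        have := hp.nonneg ω
        linarith
      refine h4.trans ?_
      rw [Finset.sum_add_distrib, ← Finset.sum_div, hp.sum_one]
      have h5 : ∑ ω, (if B (A w) ω then p ω / (2 * Pb p (B (A w))) else 0) ≤ 1 / 2 := by
        have h6 : ∑ ω, (if B (A w) ω then p ω / (2 * Pb p (B (A w))) else 0) =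
            Pb p (B (A w)) / (2 * Pb p (B (A w))) := by
          unfold Pb
          rw [Finset.sum_div]
          refine Finset.sum_congr rfl fun ω _ => ?_
          split_ifs <;> simp
        rw [h6]
        rcases (Pb_nonneg hp.nonneg (B (A w))).eq_or_lt with h7 | h7
        · rw [← h7]
          norm_num
        · rw [div_le_iff₀ (by linarith)]
          linarith
      linarith)
  have h4 : Ex q (fun w => -Real.log (p (z w) / 2 +
      if B (A w) (z w) then p (z w) / (2 * Pb p (B (A w))) else 0)) ≤
      Ex q (fun w => -Real.log (p (z w)) + (Real.log 2 - ((δ + 2) / η) *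
        if B (A w) (z w) then 1 else 0)) := by
    refine Ex_mono hq.nonneg fun w hw => ?_
    have h5 : 0 < p (z w) := hz.pos hq.nonneg hw
    by_cases h : B (A w) (z w)
    · rw [if_pos h, if_pos h]
      have h6 := hpos w hw h
      have h7 := hcon w hw h
      have h8 : p (z w) / (2 * β) ≤ p (z w) / 2 + p (z w) / (2 * Pb p (B (A w))) := by
        have h9 : p (z w) / (2 * β) ≤ p (z w) / (2 * Pb p (B (A w))) :=
          div_le_div_of_nonneg_left h5.le (by linarith) (by linarith)
        linarith
      have h9 := Real.log_le_log (by positivity) h8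
      rw [Real.log_div h5.ne' (by positivity), Real.log_mul (by norm_num) hβ0.ne', hβ,
        Real.log_exp] at h9
      linarith
    · rw [if_neg h, if_neg h, add_zero, Real.log_div h5.ne' (by norm_num)]
      linarith
  have h5 : Ex q (fun w => -Real.log (p (z w)) + (Real.log 2 - ((δ + 2) / η) *
        if B (A w) (z w) then 1 else 0)) = H p (fun ω => ω) + (Real.log 2 - ((δ + 2) / η) *
        Pb q (fun w => B (A w) (z w))) := by
    rw [Ex_add, Ex_sub, Ex_const hq.sum_one, Ex_smul]
    congr 1
    · rw [hz.ex (fun ω => -Real.log (p ω))]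
      unfold Ex H law
      rw [← Finset.sum_neg_distrib]
      refine Finset.sum_congr rfl fun ω _ => ?_
      simp
    · congr 2
      unfold Ex Pb
      refine Finset.sum_congr rfl fun w _ => ?_
      dsimp only
      by_cases h : B (A w) (z w)
      · rw [if_pos h, if_pos h, mul_one]
      · rw [if_neg h, if_neg h, mul_zero]
  have h6 : (δ + 2) / η * η ≤ (δ + 2) / η * Pb q (fun w => B (A w) (z w)) := by
    rcases le_or_gt 0 (δ + 2) with h7 | h7
    · exact mul_le_mul_of_nonneg_left h2 (div_nonneg h7 hη.le)
    · -- `δ ≥ 0` anyway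
      exfalso
      have h8 : CH q z A ≤ H p (fun ω => ω) := by
        have h9 : CH q z A ≤ CH q z (fun _ => ()) := CH_mono_cond hq.nonneg fun _ _ _ _ _ => rfl
        refine h9.trans ?_
        unfold CH
        rw [H_const hq.sum_one, sub_zero]
        have h10 := hz.H (fun ω => (ω, ()))
        rw [h10]
        exact H_mono hp.nonneg (fun ω ω' _ _ e => Prod.ext e rfl)
      linarith
  rw [div_mul_cancel₀ _ hη.ne'] at h6
  linarith

end Pool.DYN
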