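import Pool.Agent.H89.DYN.Rank
import Pool.Agent.H89.DYN.Sub
import Pool.Agent.H89.GEN.PolyB
import Pool.Agent.H36.KBX.Coef

/-!
# Absorbing a polynomial map: preparations

The rank of a finite list of gradients (with a ladder of tolerances), its covector, the Remez step.
-/

set_option autoImplicit false

namespace Pool.DYN

open Finset Real
open Pool.Agent.H49.Ent Pool.Agent.H32.Dense Pool.STK Pool.KS3 Pool.POLY
open Pool.BFL (MC Pb)

section

variable {𝒱 : Type}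

/-- The ladder of the tolerances. -/
def sm (s m : ℕ) : ℕ := (4 ^ m - 1) * s

theorem sm_zero (s : ℕ) : sm s 0 = 0 := by simp [sm]

theorem sm_succ (s m : ℕ) : sm s m + 3 * s ≤ sm s (m + 1) := by
  unfold sm
  have h1 : 1 ≤ 4 ^ m := Nat.one_le_pow _ _ (by norm_num)
  obtain ⟨a, ha⟩ : ∃ a, 4 ^ m = a + 1 := ⟨4 ^ m - 1, by omega⟩
  rw [pow_succ, ha]
  have e1 : (a + 1) * 4 - 1 = 4 * a + 3 := by omega
  rw [e1, Nat.add_sub_cancel]
  nlinarith

theorem sm_le (s m : ℕ) : sm s m ≤ 4 ^ m * s := Nat.mul_le_mul_right _ (Nat.sub_le _ _)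

/-- Some minor of order `m` of the gradients is not small. -/
def BgT {c d : ℕ} (X s : ℕ) (Q : 𝒱 → Fin c → MvPolynomial (Fin d) ℝ) (y : 𝒱 → Fin d → ℤ)
    (L m : ℕ) (T : Fin L → 𝒱) : Prop :=
  ∃ (κ : Fin m → Fin L × Fin d) (ρ : Fin m → Fin c),
    (1 / 2) ^ sm s m ≤ |(Matrix.of fun a b => gv X Q y (T (κ a).1) (κ a).2 (ρ b)).det|

open Classical in
/-- The rank. -/
noncomputable def rkT {c d : ℕ} (X s : ℕ) (Q : 𝒱 → Fin c → MvPolynomial (Fin d) ℝ)
    (y : 𝒱 → Fin d → ℤ) (L : ℕ) (T : Fin L → 𝒱) : ℕ :=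
  Nat.findGreatest (fun m => BgT X s Q y L m T) c

variable {c d : ℕ} {X s : ℕ} {Q : 𝒱 → Fin c → MvPolynomial (Fin d) ℝ} {y : 𝒱 → Fin d → ℤ}

theorem BgT_zero (L : ℕ) (T : Fin L → 𝒱) : BgT X s Q y L 0 T := by
  refine ⟨fun a => a.elim0, fun a => a.elim0, ?_⟩
  rw [sm_zero, pow_zero, Matrix.det_fin_zero, abs_one]

theorem rkT_le (L : ℕ) (T : Fin L → 𝒱) : rkT X s Q y L T ≤ c := by
  classical
  unfold rkT
  exact Nat.findGreatest_le _

theorem rkT_spec (L : ℕ) (T : Fin L → 𝒱) : BgT X s Q y L (rkT X s Q y L T) T := by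
  classical
  unfold rkT
  exact Nat.findGreatest_spec (P := fun m => BgT X s Q y L m T) (Nat.zero_le c) (BgT_zero L T)

theorem le_rkT {L m : ℕ} {T : Fin L → 𝒱} (hm : m ≤ c) (h : BgT X s Q y L m T) :
    m ≤ rkT X s Q y L T := by
  classical
  unfold rkT
  exact Nat.le_findGreatest hm h

theorem rkT_mono {L L' : ℕ} (hL : L ≤ L') (T : Fin L → 𝒱) (T' : Fin L' → 𝒱)
    (h : ∀ k, T k = T' (Fin.castLE hL k)) : rkT X s Q y L T ≤ rkT X s Q y L' T' := by
  refine le_rkT (rkT_le L T) ?_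
  obtain ⟨κ, ρ, h1⟩ := rkT_spec (X := X) (s := s) (Q := Q) (y := y) L T
  refine ⟨fun a => (Fin.castLE hL (κ a).1, (κ a).2), ρ, ?_⟩
  simp only [← h]
  exact h1

/-- **The covector of a list of vectors of rank less than `c`.** -/
theorem cov_exists (L : ℕ) (T : Fin L → 𝒱) (h : rkT X s Q y L T < c) :
    ∃ N : Fin c → ℝ, (∀ i, |N i| ≤ 1) ∧ (∃ i, |N i| = 1) ∧ ∀ (v : 𝒱) (j : Fin d),
      rkT X s Q y (L + 1) (Fin.snoc T v : Fin (L + 1) → 𝒱) = rkT X s Q y L T →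
      |∑ i, N i * gv X Q y v j i| ≤ (1 / 2) ^ (3 * s) := by
  classical
  have hsp := rkT_spec (X := X) (s := s) (Q := Q) (y := y) L T
  generalize hm : rkT X s Q y L T = m at hsp h ⊢
  obtain ⟨κ, ρ, h1⟩ := hsp
  obtain ⟨N, hN1, hN2, hN3⟩ := covector h (fun a => gv X Q y (T (κ a).1) (κ a).2) ρ
    (by positivity : (0 : ℝ) < (1 / 2) ^ sm s m) h1
  refine ⟨N, hN1, hN2, ?_⟩
  intro v j hr
  have h2 := hN3 (gv X Q y v j) ((1 / 2) ^ sm s (m + 1)) (by
    intro ρ'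
    by_contra hcon
    push Not at hcon
    have h3 : BgT X s Q y (L + 1) (m + 1) (Fin.snoc T v : Fin (L + 1) → 𝒱) := by
      refine ⟨Fin.snoc (fun a => (Fin.castSucc (κ a).1, (κ a).2)) (Fin.last L, j), ρ', ?_⟩
      have h4 : (Matrix.of fun a b => gv X Q y ((Fin.snoc T v : Fin (L + 1) → 𝒱)
          ((Fin.snoc (fun a => (Fin.castSucc (κ a).1, (κ a).2)) (Fin.last L, j) :
            Fin (m + 1) → Fin (L + 1) × Fin d) a).1)
          ((Fin.snoc (fun a => (Fin.castSucc (κ a).1, (κ a).2)) (Fin.last L, j) :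
            Fin (m + 1) → Fin (L + 1) × Fin d) a).2 (ρ' b)) =
          Matrix.of fun a b => (Fin.snoc (fun a => gv X Q y (T (κ a).1) (κ a).2)
            (gv X Q y v j) : Fin (m + 1) → Fin c → ℝ) a (ρ' b) := by
        ext a b
        simp only [Matrix.of_apply]
        refine Fin.lastCases ?_ (fun a => ?_) a
        · rw [Fin.snoc_last, Fin.snoc_last, Fin.snoc_last]
        · rw [Fin.snoc_castSucc, Fin.snoc_castSucc, Fin.snoc_castSucc]
      rw [h4]
      exact hcon.le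
    have h4 := le_rkT (by omega : m + 1 ≤ c) h3
    omega)
  refine h2.trans ?_
  rw [div_le_iff₀ (by positivity), ← pow_add]
  exact pow_le_pow_of_le_one (by norm_num) (by norm_num) (by
    have := sm_succ s m
    omega)

end

/-- A large coefficient gives a large value in the unit box. -/
theorem bigv (n D : ℕ) : ∃ c : ℕ, ∀ (P : MvPolynomial (Fin n) ℝ) (a : ℕ) (δ : ℝ),
    P.totalDegree ≤ D → 2 ^ c * (1 / 2) ^ a ≤ δ → (¬ ∀ k, |P.coeff k| ≤ δ) →
    ∃ z : Fin n → ℝ, (∀ i, |z i| ≤ 1) ∧ (1 / 2) ^ a ≤ |MvPolynomial.eval z P| := by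
  obtain ⟨C, hC0, hC⟩ := Pool.Agent.H36.KBX.coef_bound n D
  obtain ⟨c, hc⟩ := pow_unbounded_of_one_lt C (by norm_num : (1 : ℝ) < 2)
  refine ⟨c, ?_⟩
  intro P a δ hP hδ hk
  by_contra hcon
  push Not at hcon
  apply hk
  intro k
  have h1 := hC P ((1 / 2) ^ a) hP (fun y hy => (hcon y hy).le) k
  have h2 : C * (1 / 2) ^ a ≤ 2 ^ c * (1 / 2) ^ a :=
    mul_le_mul_of_nonneg_right hc.le (by positivity)
  linarith

/-- **The Remez step.** A polynomial with a coefficient larger than `2 ^ (-s)` is rarely smaller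
than `2 ^ (-3 s)` at the sample. -/
theorem remez_step (d K : ℕ) : ∃ C : ℕ, 1 ≤ C ∧ ∀ (W κ : Type) [Fintype W] (q : W → ℝ)
    (X s : ℕ) (y : W → Fin d → ℤ) (D : W → κ) (P : κ → MvPolynomial (Fin d) ℝ) (e : ℝ),
    IsLaw q → 0 ≤ e → C ≤ s → 2 * s ≤ X → (∀ w, 0 < q w → ∀ i, |((y w i : ℤ) : ℝ)| ≤ 2 ^ X) →
    (∀ v, (P v).totalDegree ≤ K) → d * (X * Real.log 2) - e ≤ CH q y D →
    s * Ex q (fun w => in1 ((¬ ∀ m, |MvPolynomial.coeff m (P (D w))| ≤ (1 / 2) ^ s) ∧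
      |MvPolynomial.eval (fun i => ((y w i : ℤ) : ℝ) / 2 ^ X) (P (D w))| ≤ (1 / 2) ^ (3 * s))) ≤
        C * (e + 1) := by
  classical
  obtain ⟨Cb, hCb1, hCb⟩ := bad_prob d K
  obtain ⟨cb, hcb⟩ := bigv d K
  have hl2 : 0 < Real.log 2 := Real.log_pos (by norm_num)
  have hl2' : Real.log 2 ≤ 1 := by linarith [Real.log_two_lt_d9]
  have hl2h : 1 / 2 ≤ Real.log 2 := by linarith [Real.log_two_gt_d9]
  refine ⟨4 * Cb * (2 * d + 2) + cb, by nlinarith, ?_⟩
  intro W κ _ q X s y D P e hq he hCs hsX hy hP hH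
  have hs1 : 2 * Cb + cb ≤ s := by nlinarith
  have hs2 : Cb ≤ s := by omega
  set u : ℕ := s / Cb with hu
  have hu1 : Cb * u ≤ s := Nat.mul_div_le s Cb
  have hu2 : s < Cb * (u + 1) := by
    have := Nat.lt_mul_div_succ s (by omega : 0 < Cb)
    simpa [hu] using this
  set P' : κ → MvPolynomial (Fin d) ℝ := fun v =>
    if ∀ m, |MvPolynomial.coeff m (P v)| ≤ (1 / 2) ^ s then 1 else P v with hP'
  have key := hCb W κ q X 0 (s + cb) u y D P' e hq
    (fun w hw i => by rw [pow_zero, one_mul]; exact hy w hw i)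
    (fun v i => by
      rw [hP']
      dsimp only
      split_ifs
      · refine (MvPolynomial.degreeOf_le_totalDegree _ _).trans ?_
        rw [MvPolynomial.totalDegree_one]
        exact Nat.zero_le _
      · exact (MvPolynomial.degreeOf_le_totalDegree _ _).trans (hP v))
    (fun w _ => by
      rw [hP']
      dsimp only
      split_ifs with h
      · refine ⟨0, fun i => by simp, ?_⟩
        rw [map_one, abs_one]
        exact pow_le_one₀ (by norm_num) (by norm_num)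
      · obtain ⟨z, hz1, hz2⟩ := hcb (P (D w)) (s + cb) ((1 / 2) ^ s) (hP _) (by
          rw [pow_add]
          have : (2 : ℝ) ^ cb * (1 / 2) ^ cb = 1 := by rw [← mul_pow]; norm_num
          have e1 : (2 : ℝ) ^ cb * ((1 / 2) ^ s * (1 / 2) ^ cb) = (1 / 2) ^ s := by
            linear_combination (1 / 2 : ℝ) ^ s * this
          rw [e1]) h
        exact ⟨z, fun i => by rw [pow_zero]; exact hz1 i, hz2⟩) hH (by nlinarith)
  set β : ℝ := Ex q (fun w => in1 ((¬ ∀ m, |MvPolynomial.coeff m (P (D w))| ≤ (1 / 2) ^ s) ∧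
      |MvPolynomial.eval (fun i => ((y w i : ℤ) : ℝ) / 2 ^ X) (P (D w))| ≤ (1 / 2) ^ (3 * s)))
    with hβ
  have hβ0 : 0 ≤ β := Ex_nonneg hq.nonneg fun ω _ => by unfold in1; split_ifs <;> norm_num
  have hle : β ≤ Ex q (fun w => in1 (|MvPolynomial.eval (fun i => ((y w i : ℤ) : ℝ) / 2 ^ X)
      (P' (D w))| ≤ (1 / 2) ^ (s + cb + Cb * (u + 1)))) := by
    refine Ex_mono hq.nonneg fun w _ => ?_
    unfold in1
    split_ifs with h1 h2 h2
    · exact le_rfl
    · exfalso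
      apply h2
      rw [hP']
      dsimp only
      rw [if_neg h1.1]
      refine h1.2.trans ?_
      refine pow_le_pow_of_le_one (by norm_num) (by norm_num) ?_
      nlinarith
    · norm_num
    · exact le_rfl
  have h1 : (u : ℝ) * Real.log 2 * β ≤ e + (1 + 2 * d) * Real.log 2 := by
    have h2 := mul_le_mul_of_nonneg_left hle (by positivity : (0 : ℝ) ≤ u * Real.log 2)
    push_cast at key
    have e1 : (1 + (d : ℝ) * (0 + 2)) = 1 + 2 * d := by ring
    rw [e1] at key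
    exact h2.trans key
  -- `s ≤ 2 Cb u`
  have h3 : (s : ℝ) ≤ 2 * Cb * u := by
    have h4 : s < Cb * u + Cb := by
      have : Cb * (u + 1) = Cb * u + Cb := by ring
      omega
    have h5 : s ≤ 2 * Cb * u := by nlinarith
    exact_mod_cast h5
  have h4 : (1 + 2 * (d : ℝ)) * Real.log 2 ≤ 1 + 2 * d :=
    mul_le_of_le_one_right (by positivity) hl2'
  have h5 : (u : ℝ) * β ≤ 2 * (e + (1 + 2 * d)) := by
    have h6 : (u : ℝ) * β * (1 / 2) ≤ u * β * Real.log 2 :=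
      mul_le_mul_of_nonneg_left hl2h (by positivity)
    linarith
  have hd0 : (0 : ℝ) ≤ d := Nat.cast_nonneg _
  have hCb0 : (0 : ℝ) ≤ Cb := Nat.cast_nonneg _
  have hcb0 : (0 : ℝ) ≤ cb := Nat.cast_nonneg _
  have h6 : (s : ℝ) * β ≤ 2 * Cb * (2 * (e + (1 + 2 * d))) := by
    calc (s : ℝ) * β ≤ 2 * Cb * u * β := mul_le_mul_of_nonneg_right h3 hβ0
      _ = 2 * Cb * (u * β) := by ring
      _ ≤ _ := mul_le_mul_of_nonneg_left h5 (by positivity)
  have h7 : e + (1 + 2 * (d : ℝ)) ≤ (2 * d + 2) * (e + 1) := by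
    have : 0 ≤ (d : ℝ) * e := mul_nonneg hd0 he
    linarith
  have h8 := mul_le_mul_of_nonneg_left h7 (by positivity : (0 : ℝ) ≤ 4 * Cb)
  have h9 : 0 ≤ (cb : ℝ) * (e + 1) := by positivity
  push_cast
  linarith

end Pool.DYN
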