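import Pool.Agent.H89.DYN.AbsA

/-!
# Absorbing a polynomial map (row 236), preparations

`M` is a random integer vector (units `2 ^ (-X)`) of entropy at most `(c - c₀) X log 2`, which is
almost independent of `V`; the vector `M + Q_V (y_V)` is also almost independent of `V`, where `Q_V`
is a polynomial map and `y_V` is almost full given `Q_V`. Then there is a unit covector `N` such
that, with probability at least `exp (-δ X)`, all the coefficients of `N · Q_V` (except the constant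
one) are at most `exp (-h X)`.
-/

set_option autoImplicit false

namespace Pool.DYN

open Finset Real
open Pool.Agent.H49.Ent Pool.Agent.H32.Dense Pool.STK Pool.KS3 Pool.POLY
open Pool.BFL (MC Pb)

section

variable {Ω W 𝒱 : Type} [Fintype Ω] [Fintype W]

/-- Pigeonhole. -/
theorem pig (f : ℕ → ℝ) (C : ℝ) (Rm : ℕ) (hRm : 1 ≤ Rm) (hmono : ∀ L, f L ≤ f (L + 1))
    (h0 : 0 ≤ f 0) (hC : f (2 * Rm) ≤ C) : ∃ R < Rm, f (2 * R + 1) - f (2 * R) ≤ C / Rm := by
  by_contra hcon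
  push Not at hcon
  have h1 : ∀ R, ∑ r ∈ range R, (f (2 * r + 1) - f (2 * r)) ≤ f (2 * R) - f 0 := by
    intro R
    induction R with
    | zero => simp
    | succ R ih =>
      rw [Finset.sum_range_succ]
      have h2 := hmono (2 * R + 1)
      rw [show 2 * (R + 1) = 2 * R + 1 + 1 by ring]
      linarith
  have h2 : ∑ r ∈ range Rm, C / (Rm : ℝ) < ∑ r ∈ range Rm, (f (2 * r + 1) - f (2 * r)) := by
    refine Finset.sum_lt_sum_of_nonempty ⟨0, Finset.mem_range.2 hRm⟩ fun r hr => ?_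
    exact hcon r (Finset.mem_range.1 hr)
  rw [Finset.sum_const, Finset.card_range, nsmul_eq_mul] at h2
  have h3 : (Rm : ℝ) * (C / Rm) = C := by
    have : (0 : ℝ) < Rm := by exact_mod_cast hRm
    field_simp
  rw [h3] at h2
  have := h1 Rm
  linarith

/-- Fullness of `y` for a copy. -/
theorem y_full {𝒴 𝒬 𝒟 : Type} {p : Ω → ℝ} {q : W → ℝ} (hp : IsLaw p) (hq : IsLaw q)
    {z : W → Ω} (hz : Marg q p z) (V : Ω → 𝒱) (yV : Ω → 𝒴) (QV : Ω → 𝒬) (hy : Det p V yV)
    (hQ : Det p V QV) (D : W → 𝒟) {ε : ℝ} (h : H p V - ε ≤ CH q (fun w => V (z w)) D) :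
    CH p yV QV - ε ≤ CH q (fun w => yV (z w)) (fun w => (D w, QV (z w))) := by
  have hq0 := hq.nonneg
  have a2 : CH q (fun w => V (z w)) D ≤ CH q (fun w => QV (z w)) D +
      CH q (fun w => V (z w)) (fun w => (QV (z w), D w)) := CH_le_add hq0 _ _ _
  have a3 : CH q (fun w => V (z w)) (fun w => (QV (z w), D w)) ≤
      CH q (fun w => yV (z w)) (fun w => (QV (z w), D w)) +
      CH q (fun w => V (z w)) (fun w => (yV (z w), (QV (z w), D w))) := CH_le_add hq0 _ _ _
  have a4 : CH q (fun w => QV (z w)) D ≤ H p QV := by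
    have e1 : CH q (fun w => QV (z w)) D ≤ CH q (fun w => QV (z w)) (fun _ => ()) :=
      CH_mono_cond hq0 fun _ _ _ _ _ => rfl
    rw [← H_unit hq, hz.H QV] at e1
    exact e1
  have a5 : CH q (fun w => V (z w)) (fun w => (yV (z w), (QV (z w), D w))) ≤
      CH p V (fun ω => (yV ω, QV ω)) := by
    rw [← hz.CH V (fun ω => (yV ω, QV ω))]
    refine CH_mono_cond hq0 ?_
    intro w w' _ _ e
    simp only [Prod.mk.injEq] at e ⊢
    exact ⟨e.1, e.2.1⟩
  have a6 : H p V = H p QV + CH p yV QV + CH p V (fun ω => (yV ω, QV ω)) := by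
    have b1 : H p V = H p (fun ω => (V ω, (yV ω, QV ω))) := by
      refine H_congr hp.nonneg ?_ ?_
      · intro ω ω' _ _ e
        exact (Prod.ext_iff.1 e).1
      · intro ω ω' a b e
        exact Prod.ext e (Prod.ext (hy ω ω' a b e) (hQ ω ω' a b e))
    unfold CH
    rw [b1]
    ring
  have a7 : CH q (fun w => yV (z w)) (fun w => (QV (z w), D w)) =
      CH q (fun w => yV (z w)) (fun w => (D w, QV (z w))) := by
    refine CH_congr hq0 (fun _ _ _ _ e => (Prod.ext_iff.1 e).1)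
      (fun _ _ _ _ e => (Prod.ext_iff.1 e).1) ?_ ?_ <;>
    · intro w w' _ _ e
      simp only [Prod.mk.injEq] at e ⊢
      tauto
  linarith

/-- The new sample given the variables `V` of the past. -/
theorem v_past {G : Type} [AddCommGroup G] {p : Ω → ℝ} {M : Ω → G} {V : Ω → 𝒱} {f : 𝒱 → G}
    {n : ℕ} {q : W → ℝ} {z : ℕ → W → Ω}
    (h : MC p (cw M (fun ω => M ω + f (V ω))) n q z) {ε : ℝ} (hε : 0 ≤ ε)
    (h1 : H p V - ε ≤ CH p V M) (r : ℕ) (hr : 2 * r ≤ n) :
    H p V - ε ≤ CH q (fun w => V (z (2 * r) w)) (tup V z (2 * r)) := by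
  have hq := h.isLaw.nonneg
  rcases Nat.eq_zero_or_pos r with h0 | h0
  · subst h0
    have e1 : CH q (fun w => V (z (2 * 0) w)) (tup V z (2 * 0)) =
        CH q (fun w => V (z 0 w)) (fun _ => ()) := by
      refine CH_congr hq (fun _ _ _ _ e => (Prod.ext_iff.1 e).1) (fun _ _ _ _ e =>
        (Prod.ext_iff.1 e).1) (fun _ _ _ _ _ => rfl) ?_
      intro w w' _ _ _
      funext k
      exact k.elim0
    rw [e1, ← H_unit h.isLaw, (h.marg 0 (Nat.zero_le n)).H V]
    linarith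
  · obtain ⟨i, hi⟩ : ∃ i, 2 * r = i + 1 := ⟨2 * r - 1, by omega⟩
    rw [hi] at hr ⊢
    have e1 := walk_step h V i (by omega)
    have e2 : cw M (fun ω => M ω + f (V ω)) i = M := by
      funext ω
      unfold cw
      rw [if_neg (by omega)]
    rw [e2] at e1
    rw [← e1] at h1
    refine h1.trans (CH_mono_cond hq ?_)
    intro w w' _ _ e
    funext k
    have := congrFun e k
    simp only [tup] at this ⊢
    rw [this]

theorem Pb_eq_Ex (q : W → ℝ) (A : W → Prop) : Pb q A = Ex q (fun w => in1 (A w)) := by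
  classical
  unfold Pb Ex in1
  refine Finset.sum_congr rfl fun w _ => ?_
  dsimp only
  by_cases h : A w
  · rw [if_pos h, if_pos h, mul_one]
  · rw [if_neg h, if_neg h, mul_zero]

theorem Pb_le {p : Ω → ℝ} (hp : ∀ ω, 0 ≤ p ω) {A B : Ω → Prop} (h : ∀ ω, A ω → B ω) :
    Pb p A ≤ Pb p B := by
  classical
  unfold Pb
  refine Finset.sum_le_sum fun ω _ => ?_
  by_cases hA : A ω
  · rw [if_pos hA, if_pos (h ω hA)]
  · rw [if_neg hA]
    split_ifs
    · exact hp ω
    · exact le_rfl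

/-- Coefficients from the coefficients of the derivatives. -/
theorem coeff_of_pderiv {d : ℕ} (P : MvPolynomial (Fin d) ℝ) {τ : ℝ}
    (h : ∀ j m, |MvPolynomial.coeff m (MvPolynomial.pderiv j P)| ≤ τ) (m : Fin d →₀ ℕ)
    (hm : m ≠ 0) : |MvPolynomial.coeff m P| ≤ τ := by
  classical
  obtain ⟨j, hj⟩ : ∃ j, m j ≠ 0 := by
    by_contra hcon
    push Not at hcon
    exact hm (Finsupp.ext hcon)
  have h1 := h j (m - Finsupp.single j 1)
  rw [MvPolynomial.coeff_pderiv] at h1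
  have e1 : m - Finsupp.single j 1 + Finsupp.single j 1 = m := by
    refine tsub_add_cancel_of_le ?_
    rw [Finsupp.single_le_iff]
    omega
  rw [e1] at h1
  refine le_trans ?_ h1
  rw [abs_mul]
  refine le_mul_of_one_le_right (abs_nonneg _) ?_
  rw [abs_of_nonneg (by positivity)]
  have : (0 : ℝ) ≤ (((m - Finsupp.single j 1 : Fin d →₀ ℕ) j : ℕ) : ℝ) := Nat.cast_nonneg _
  linarith

end


/-- The combination of the derivatives. -/
noncomputable def gP {c d : ℕ} (F : Fin c → MvPolynomial (Fin d) ℝ) (N : Fin c → ℝ) (j : Fin d) :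
    MvPolynomial (Fin d) ℝ := ∑ i, MvPolynomial.C (N i) * MvPolynomial.pderiv j (F i)

/-- All the coefficients of the combinations are small. -/
def Good {c d : ℕ} (s : ℕ) (F : Fin c → MvPolynomial (Fin d) ℝ) (N : Fin c → ℝ) : Prop :=
  ∀ j m, |MvPolynomial.coeff m (gP F N j)| ≤ (1 / 2) ^ s

/-- The value is small although some coefficient is not. -/
def Bad {c d : ℕ} (X s : ℕ) (F : Fin c → MvPolynomial (Fin d) ℝ) (N : Fin c → ℝ) (y : Fin d → ℤ)
    (j : Fin d) : Prop :=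
  (¬ ∀ m, |MvPolynomial.coeff m (gP F N j)| ≤ (1 / 2) ^ s) ∧
    |MvPolynomial.eval (fun i => ((y i : ℤ) : ℝ) / 2 ^ X) (gP F N j)| ≤ (1 / 2) ^ (3 * s)

theorem in1_nonneg (A : Prop) : 0 ≤ in1 A := by unfold in1; split_ifs <;> norm_num

theorem in1_le_one (A : Prop) : in1 A ≤ 1 := by unfold in1; split_ifs <;> norm_num

theorem in1_pos {A : Prop} (h : A) : in1 A = 1 := by
  unfold in1
  exact if_pos h

/-- The pointwise inequality. -/
theorem abs_pt {𝒱 : Type} {c d : ℕ} (X s : ℕ) (Q : 𝒱 → Fin c → MvPolynomial (Fin d) ℝ)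
    (y : 𝒱 → Fin d → ℤ) (L : ℕ) (T : Fin L → 𝒱) (v : 𝒱) (N : Fin c → ℝ)
    (hN : rkT X s Q y L T < c →
      rkT X s Q y (L + 1) (Fin.snoc T v : Fin (L + 1) → 𝒱) = rkT X s Q y L T → ∀ j : Fin d,
      |∑ i, N i * gv X Q y v j i| ≤ (1 / 2) ^ (3 * s)) :
    1 ≤ in1 (rkT X s Q y L T < c ∧ Good s (Q v) N) +
      ((rkT X s Q y (L + 1) (Fin.snoc T v : Fin (L + 1) → 𝒱) : ℝ) - (rkT X s Q y L T : ℝ)) +
      in1 (BgT X s Q y L c T) + ∑ j, in1 (Bad X s (Q v) N (y v) j) := by
  have iS : 0 ≤ ∑ j, in1 (Bad X s (Q v) N (y v) j) :=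
    Finset.sum_nonneg fun j _ => in1_nonneg _
  have i1 := in1_nonneg (rkT X s Q y L T < c ∧ Good s (Q v) N)
  have i2 := in1_nonneg (BgT X s Q y L c T)
  have hmon : rkT X s Q y L T ≤ rkT X s Q y (L + 1) (Fin.snoc T v : Fin (L + 1) → 𝒱) :=
    rkT_mono (Nat.le_succ L) _ _ (fun k => by
      have : Fin.castLE (Nat.le_succ L) k = Fin.castSucc k := rfl
      rw [this, Fin.snoc_castSucc])
  have hmon' : (rkT X s Q y L T : ℝ) ≤
    (rkT X s Q y (L + 1) (Fin.snoc T v : Fin (L + 1) → 𝒱) : ℝ) := by exact_mod_cast hmon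
  by_cases k1 : rkT X s Q y (L + 1) (Fin.snoc T v : Fin (L + 1) → 𝒱) = rkT X s Q y L T
  swap
  · have k2 : rkT X s Q y L T + 1 ≤ rkT X s Q y (L + 1) (Fin.snoc T v : Fin (L + 1) → 𝒱) :=
      Nat.lt_of_le_of_ne hmon (Ne.symm k1)
    have k3 : (rkT X s Q y L T : ℝ) + 1 ≤
        (rkT X s Q y (L + 1) (Fin.snoc T v : Fin (L + 1) → 𝒱) : ℝ) := by exact_mod_cast k2
    linarith
  by_cases k2 : rkT X s Q y L T < c
  swap
  · have k3 : rkT X s Q y L T = c := le_antisymm (rkT_le _ _) (not_lt.1 k2)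
    have k4 := rkT_spec (X := X) (s := s) (Q := Q) (y := y) L T
    rw [k3] at k4
    rw [in1_pos k4]
    linarith
  by_cases k3 : Good s (Q v) N
  · rw [in1_pos (A := rkT X s Q y L T < c ∧ Good s (Q v) N) ⟨k2, k3⟩]
    linarith
  · obtain ⟨j, hj⟩ : ∃ j, ¬ ∀ m, |MvPolynomial.coeff m (gP (Q v) N j)| ≤ (1 / 2) ^ s := by
      by_contra hcon
      push Not at hcon
      exact k3 fun j m => hcon j m
    have k5 : Bad X s (Q v) N (y v) j := by
      refine ⟨hj, ?_⟩
      have k6 := hN k2 k1 j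
      refine le_trans (le_of_eq ?_) k6
      unfold gP
      rw [map_sum]
      congr 1
      refine Finset.sum_congr rfl fun i _ => ?_
      rw [map_mul, MvPolynomial.eval_C]
      rfl
    have k6 := in1_pos k5
    have k7 : in1 (Bad X s (Q v) N (y v) j) ≤ ∑ j, in1 (Bad X s (Q v) N (y v) j) :=
      Finset.single_le_sum (f := fun j => in1 (Bad X s (Q v) N (y v) j))
        (fun j _ => in1_nonneg _) (Finset.mem_univ j)
    linarith

/-- The Remez step for the new sample. -/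
theorem abs_rem (c d K : ℕ) : ∃ C : ℕ, 1 ≤ C ∧ ∀ (W S : Type) [Fintype W] (q : W → ℝ)
    (X s b : ℕ) (y : W → Fin d → ℤ) (A : W → S) (F : W → Fin c → MvPolynomial (Fin d) ℝ)
    (N : S → Fin c → ℝ) (e : ℝ),
    IsLaw q → 0 ≤ e → C ≤ s → 2 * s ≤ X → (∀ w, 0 < q w → ∀ i, |((y w i : ℤ) : ℝ)| ≤ 2 ^ X) →
    (∀ w i, (F w i).totalDegree ≤ K) → (∀ w i m, |MvPolynomial.coeff m (F w i)| ≤ 2 ^ b) →
    d * (X * Real.log 2) - e ≤ CH q y (fun w => (A w, F w)) → ∀ j,
    s * Ex q (fun w => in1 (Bad X s (F w) (N (A w)) (y w) j)) ≤ C * (e + 1) := by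
  classical
  obtain ⟨C, hC1, hC⟩ := remez_step d K
  refine ⟨C, hC1, ?_⟩
  intro W S _ q X s b y A F N e hq he hCs hsX hy hdeg hcoeff hH j
  have key := hC W (S × (Fin c → MvPolynomial (Fin d) ℝ)) q X s y (fun w => (A w, F w))
    (fun v => gP (fun i => clip K (2 ^ b) (v.2 i)) (N v.1) j) e hq he hCs hsX hy ?_ hH
  · refine le_trans (le_of_eq ?_) key
    congr 1
    unfold Ex
    refine Finset.sum_congr rfl fun w _ => ?_
    have e1 : (fun i => clip K (2 ^ b) (F w i)) = F w := by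
      funext i
      exact clip_eq (hdeg _ i) (hcoeff _ i)
    dsimp only
    rw [e1]
    rfl
  · intro v
    unfold gP
    refine (MvPolynomial.totalDegree_finsetSum _ _).trans (Finset.sup_le fun i _ => ?_)
    refine (MvPolynomial.totalDegree_mul _ _).trans ?_
    rw [MvPolynomial.totalDegree_C, zero_add]
    exact totalDegree_pderiv _ _ (clip_deg K _ _)

/-- The coefficients of `N · F` on the good event. -/
theorem abs_good {c d : ℕ} {s : ℕ} {F : Fin c → MvPolynomial (Fin d) ℝ} {N : Fin c → ℝ}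
    (h : Good s F N) (m : Fin d →₀ ℕ) (hm : m ≠ 0) :
    |MvPolynomial.coeff m (∑ i, MvPolynomial.C (N i) * F i)| ≤ (1 / 2) ^ s := by
  refine coeff_of_pderiv (∑ i, MvPolynomial.C (N i) * F i) (τ := (1 / 2) ^ s) (fun j m => ?_) m hm
  have e2 : MvPolynomial.pderiv j (∑ i, MvPolynomial.C (N i) * F i) = gP F N j := by
    unfold gP
    rw [map_sum]
    refine Finset.sum_congr rfl fun i _ => ?_
    rw [Derivation.leibniz, MvPolynomial.pderiv_C, smul_zero, add_zero, smul_eq_mul]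
  rw [e2]
  exact h j m

end Pool.DYN
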