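import Pool.Agent.H89.GEN.Poly

/-!
# Entropy of the fibres of a polynomial map on an event where a minor is large

The minor may depend on the sample.
-/

set_option autoImplicit false

namespace Pool.DYN

open Finset Real
open Pool.Agent.H49.Ent Pool.Agent.H32.Dense Pool.STK Pool.POLY

/-- **Fibres.** -/
theorem inj_ent (n r K : ℕ) : ∃ C : ℝ, 1 ≤ C ∧ ∀ (Ω κ : Type) [Fintype Ω] (p : Ω → ℝ)
    (X b s₀ : ℕ) (y : Ω → Fin n → ℤ) (c : Ω → κ) (P : κ → Fin r → MvPolynomial (Fin n) ℝ)
    (I : Ω → Fin r → Fin n) (G : Ω → Prop), IsLaw p →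
    (∀ ω, 0 < p ω → ∀ i, |((y ω i : ℤ) : ℝ)| ≤ 2 ^ X) →
    (∀ v j, (P v j).totalDegree ≤ K) → (∀ v j m, |MvPolynomial.coeff m (P v j)| ≤ 2 ^ b) →
    (∀ ω, 0 < p ω → G ω → (1 / 2) ^ s₀ ≤
      |MvPolynomial.eval (fun i => ((y ω i : ℤ) : ℝ) / 2 ^ X) (jac (P (c ω)) (I ω))|) →
    CH p y (fun ω => ((fun j => ⌊2 ^ X * MvPolynomial.eval
        (fun i => ((y ω i : ℤ) : ℝ) / 2 ^ X) (P (c ω) j)⌋), c ω)) ≤
      (n * X - r * X * Ex p (fun ω => in1 (G ω))) * Real.log 2 + C * (b + s₀ + 1) := by
  classical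
  obtain ⟨C₀, hC₀1, hC₀⟩ := loc_inj n r K
  obtain ⟨c₀, hc₀⟩ : ∃ c₀ : ℕ, C₀ ≤ 2 ^ c₀ := by
    obtain ⟨m, hm⟩ := pow_unbounded_of_one_lt C₀ (by norm_num : (1 : ℝ) < 2)
    exact ⟨m, hm.le⟩
  have hl2 : 0 < Real.log 2 := Real.log_pos (by norm_num)
  have hl2' : Real.log 2 ≤ 1 := by linarith [Real.log_two_lt_d9]
  set C₂ : ℝ := c₀ + (r + 1) + 1 with hC₂
  have hC₂1 : 1 ≤ C₂ := by
    have : (0 : ℝ) ≤ c₀ + (r + 1) := by positivity
    linarith
  set C : ℝ := Real.log (n ^ r + 1) + (11 * n + 2 * n * C₂ + 1) + (2 * n + r * C₂) with hC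
  have hlog0 : 0 ≤ Real.log (n ^ r + 1) := Real.log_nonneg (by
    have : (0 : ℝ) ≤ (n : ℝ) ^ r := by positivity
    linarith)
  have hC1 : 1 ≤ C := by
    have : (0 : ℝ) ≤ 11 * n + 2 * n * C₂ + (2 * n + r * C₂) := by positivity
    linarith
  refine ⟨C, hC1, ?_⟩
  intro Ω κ _ p X b s₀ y c P I G hp hy hdeg hcoeff hG
  set Y : Ω → Fin r → ℤ := fun ω j => ⌊2 ^ X * MvPolynomial.eval
    (fun i => ((y ω i : ℤ) : ℝ) / 2 ^ X) (P (c ω) j)⌋ with hY
  set β : ℝ := Ex p (fun ω => in1 (G ω)) with hβ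
  have hβ0 : 0 ≤ β := Ex_nonneg hp.nonneg fun ω _ => by unfold in1; split_ifs <;> norm_num
  have hβ1 : β ≤ 1 := by
    have h1 := Ex_mono hp.nonneg (f := fun ω => in1 (G ω)) (g := fun _ => (1 : ℝ)) fun ω _ => by
      unfold in1
      split_ifs <;> norm_num
    rw [Ex_const hp.sum_one] at h1
    exact h1
  set s : ℕ := c₀ + b * (r + 1) + s₀ with hs
  have hn0 : (0 : ℝ) ≤ n := Nat.cast_nonneg _
  have hr0 : (0 : ℝ) ≤ r := Nat.cast_nonneg _
  have hX0 : (0 : ℝ) ≤ X := Nat.cast_nonneg _
  have hb0 : (0 : ℝ) ≤ b := Nat.cast_nonneg _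
  have hs₀0 : (0 : ℝ) ≤ s₀ := Nat.cast_nonneg _
  have hc₀0 : (0 : ℝ) ≤ c₀ := Nat.cast_nonneg _
  set S : ℝ := b + s₀ + 1 with hS
  have hS1 : 1 ≤ S := by linarith
  have hsC : (s : ℝ) ≤ C₂ * S := by
    rw [hs, hC₂, hS]
    push_cast
    have h1 : (c₀ : ℝ) ≤ c₀ * (b + s₀ + 1) := le_mul_of_one_le_right hc₀0 (by linarith)
    have h2 : (b : ℝ) * (r + 1) ≤ (b + s₀ + 1) * (r + 1) :=
      mul_le_mul_of_nonneg_right (by linarith) (by linarith)
    linarith
  -- the trivial bound
  have htriv : CH p y (fun ω => (Y ω, c ω)) ≤ n * ((X + 3) * Real.log 2) := by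
    refine (CH_le_vec hp.nonneg hp.sum_one y _ (fun _ => 2 ^ (X + 1)) ?_).trans ?_
    · intro ω ω' hω hω' _ i
      push_cast
      refine (abs_sub _ _).trans ?_
      have := hy ω hω i
      have := hy ω' hω' i
      rw [pow_succ]
      linarith
    · rw [Ex_const hp.sum_one]
      refine mul_le_mul_of_nonneg_left ?_ hn0
      have e1 : (2 : ℝ) * 2 ^ (X + 1) + 1 ≤ 2 ^ (X + 3) := by
        have e5 : (1 : ℝ) ≤ 2 ^ (X + 1) := one_le_pow₀ (by norm_num)
        have e6 : (2 : ℝ) ^ (X + 3) = 4 * 2 ^ (X + 1) := by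
          rw [show X + 3 = (X + 1) + 2 from rfl, pow_add _ (X + 1) 2]; ring
        rw [e6]
        linarith
      refine (Real.log_le_log (by positivity) e1).trans ?_
      rw [Real.log_pow]
      push_cast
      exact le_rfl
  by_cases hsX : s ≤ X
  swap
  · push Not at hsX
    have h1 : (X : ℝ) ≤ C₂ * S := by
      have : (X : ℝ) ≤ s := by exact_mod_cast hsX.le
      linarith
    refine htriv.trans ?_
    have h2 : (r : ℝ) * X * β ≤ r * (C₂ * S) := by
      calc (r : ℝ) * X * β ≤ r * X * 1 := mul_le_mul_of_nonneg_left hβ1 (by positivity)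
        _ = r * X := mul_one _
        _ ≤ _ := mul_le_mul_of_nonneg_left h1 hr0
    have h3 : ((r : ℝ) * X * β) * Real.log 2 ≤ r * (C₂ * S) :=
      (mul_le_of_le_one_right (by positivity) hl2').trans h2
    have h4 : (n : ℝ) * 3 * Real.log 2 ≤ 3 * n * S := by
      have h5 : (n : ℝ) * 3 * Real.log 2 ≤ n * 3 := mul_le_of_le_one_right (by positivity) hl2'
      have h6 : 3 * (n : ℝ) * 1 ≤ 3 * n * S := mul_le_mul_of_nonneg_left hS1 (by positivity)
      linarith
    have h7 : (3 * n + r * C₂) * S ≤ C * S := by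
      refine mul_le_mul_of_nonneg_right ?_ (by linarith)
      have : (0 : ℝ) ≤ 2 * n * C₂ := by positivity
      linarith
    linarith
  -- the columns
  set I' : Ω → Option (Fin r → Fin n) := fun ω => if G ω then some (I ω) else none with hI'
  set yo : Ω → Fin n → ℤ := fun ω i => if G ω ∧ ∀ j, I ω j ≠ i then y ω i else 0 with hyo
  set w : Ω → Fin n → ℤ := fun ω i => y ω i / 2 ^ (X - s) with hw
  have hinj : ∀ ω, 0 < p ω → G ω → Function.Injective (I ω) := by
    intro ω hω hg
    have h1 := hG ω hω hg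
    refine inj_of_jac (P (c ω)) (I ω) (fun i => ((y ω i : ℤ) : ℝ) / 2 ^ X) fun h => ?_
    rw [h, abs_zero] at h1
    have : (0 : ℝ) < (1 / 2) ^ s₀ := by positivity
    linarith
  have hIs : ∀ ω, G ω → I' ω = some (I ω) := fun ω hg => if_pos hg
  have hIn : ∀ ω, ¬ G ω → I' ω = none := fun ω hg => if_neg hg
  have h2 : CH p y (fun ω => (Y ω, c ω)) ≤ CH p I' (fun ω => (Y ω, c ω)) +
      CH p y (fun ω => (I' ω, (Y ω, c ω))) := CH_le_add hp.nonneg y I' _
  have h3 : CH p y (fun ω => (I' ω, (Y ω, c ω))) ≤ CH p yo (fun ω => (I' ω, (Y ω, c ω))) +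
      CH p y (fun ω => (yo ω, (I' ω, (Y ω, c ω)))) := CH_le_add hp.nonneg y yo _
  have h4 : CH p y (fun ω => (yo ω, (I' ω, (Y ω, c ω)))) ≤
      CH p w (fun ω => (yo ω, (I' ω, (Y ω, c ω)))) +
      CH p y (fun ω => (w ω, (yo ω, (I' ω, (Y ω, c ω))))) := CH_le_add hp.nonneg y w _
  have h5 : CH p I' (fun ω => (Y ω, c ω)) ≤ Real.log (n ^ r + 1) := by
    have h6 := CH_le_card hp.nonneg hp.sum_one I' (fun ω => (Y ω, c ω)) (fun _ => Finset.univ)
      (fun ω _ => Finset.mem_univ _)
    refine h6.trans ?_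
    rw [Ex_const hp.sum_one, Finset.card_univ, Fintype.card_option, Fintype.card_fun,
      Fintype.card_fin, Fintype.card_fin]
    push_cast
    exact le_rfl
  -- the coordinates outside of the minor
  have h6 : CH p yo (fun ω => (I' ω, (Y ω, c ω))) ≤ β * ((n - r) * (X + 2) * Real.log 2) := by
    refine (CH_le_card hp.nonneg hp.sum_one yo (fun ω => (I' ω, (Y ω, c ω)))
      (fun q => match q.1 with
        | none => {0}
        | some J => Fintype.piFinset fun i => if ∀ j, J j ≠ i then
            Finset.Icc (-(2 ^ X)) (2 ^ X) else {0}) ?_).trans ?_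
    · intro ω hω
      dsimp only
      by_cases hg : G ω
      · rw [hIs ω hg]
        dsimp only
        rw [Fintype.mem_piFinset]
        intro i
        by_cases hj : ∀ j, I ω j ≠ i
        · rw [if_pos hj, hyo]
          dsimp only
          rw [if_pos ⟨hg, hj⟩, Finset.mem_Icc, ← abs_le]
          exact_mod_cast hy ω hω i
        · rw [if_neg hj, hyo]
          dsimp only
          rw [if_neg (fun h => hj h.2)]
          exact Finset.mem_singleton_self _
      · rw [hIn ω hg]
        dsimp only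
        rw [Finset.mem_singleton]
        funext i
        rw [hyo]
        dsimp only
        rw [if_neg (fun h => hg h.1)]
        rfl
    · have h7 : Ex p (fun ω => ((n - r) * (X + 2) * Real.log 2) * in1 (G ω)) =
          β * ((n - r) * (X + 2) * Real.log 2) := by
        rw [Ex_smul]
        ring
      rw [← h7]
      refine Ex_mono hp.nonneg fun ω hω => ?_
      dsimp only
      by_cases hg : G ω
      · rw [hIs ω hg]
        dsimp only
        unfold in1
        rw [if_pos hg, mul_one, Fintype.card_piFinset]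
        have h8 : ∀ i : Fin n, (if ∀ j, I ω j ≠ i then Finset.Icc (-(2 ^ X)) (2 ^ X) else
            ({0} : Finset ℤ)).card = if ∀ j, I ω j ≠ i then
            (Finset.Icc (-(2 ^ X) : ℤ) (2 ^ X)).card else 1 := by
          intro i
          split_ifs <;> simp
        rw [Finset.prod_congr rfl fun i _ => h8 i, Finset.prod_ite, Finset.prod_const_one, mul_one,
          Finset.prod_const]
        have h9 : (Finset.univ.filter fun i : Fin n => ∀ j, I ω j ≠ i).card = n - r := by
          have h10 : (Finset.univ.filter fun i : Fin n => ∀ j, I ω j ≠ i) =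
              Finset.univ \ Finset.univ.image (I ω) := by
            ext i
            simp
          rw [h10, Finset.card_sdiff_of_subset (Finset.subset_univ _),
            Finset.card_image_of_injective _ (hinj ω hω hg)]
          simp
        have hrn : r ≤ n := by
          have := Fintype.card_le_of_injective _ (hinj ω hω hg)
          simpa using this
        have hrn' : (r : ℝ) ≤ n := by exact_mod_cast hrn
        rw [h9]
        push_cast
        rw [Real.log_pow]
        have h11 := Real.log_le_log (by exact_mod_cast card_Icc_pos X) (card_Icc_le X)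
        rw [Real.log_pow] at h11
        rw [Nat.cast_sub hrn]
        have h12 : (0 : ℝ) ≤ n - r := by linarith
        calc ((n : ℝ) - r) * Real.log ((Finset.Icc (-(2 ^ X) : ℤ) (2 ^ X)).card : ℝ)
            ≤ (n - r) * (((X + 2 : ℕ) : ℝ) * Real.log 2) := mul_le_mul_of_nonneg_left h11 h12
          _ = (n - r) * (X + 2) * Real.log 2 := by push_cast; ring
      · rw [hIn ω hg]
        dsimp only
        unfold in1
        rw [if_neg hg]
        simp
  -- the coarse digits
  have hdiff : ∀ ω ω', 0 < p ω → 0 < p ω' → ∀ i, |((y ω i - y ω' i : ℤ) : ℝ)| ≤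
      2 ^ (X + 1) := by
    intro ω ω' hω hω' i
    push_cast
    refine (abs_sub _ _).trans ?_
    have := hy ω hω i
    have := hy ω' hω' i
    rw [pow_succ]
    linarith
  have hpos : (0 : ℝ) < 2 ^ (X - s) := by positivity
  have hXs : (2 : ℝ) ^ X = 2 ^ (X - s) * 2 ^ s := by rw [← pow_add, Nat.sub_add_cancel hsX]
  have hfl : ∀ ω i, (w ω i : ℝ) * 2 ^ (X - s) ≤ y ω i ∧
      (y ω i : ℝ) < (w ω i + 1) * 2 ^ (X - s) := by
    intro ω i
    have e1 : (0 : ℤ) < 2 ^ (X - s) := by positivity
    have e2 := Int.ediv_mul_le (y ω i) e1.ne'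
    have e3 := Int.lt_ediv_add_one_mul_self (y ω i) e1
    constructor
    · have : ((w ω i * 2 ^ (X - s) : ℤ) : ℝ) ≤ y ω i := by exact_mod_cast e2
      push_cast at this
      exact this
    · have : ((y ω i : ℤ) : ℝ) < (((w ω i + 1) * 2 ^ (X - s) : ℤ) : ℝ) := by exact_mod_cast e3
      push_cast at this
      exact this
  have h7 : CH p w (fun ω => (yo ω, (I' ω, (Y ω, c ω)))) ≤ n * ((s + 4) * Real.log 2) := by
    refine (CH_le_vec hp.nonneg hp.sum_one w _ (fun _ => 2 ^ (s + 2)) ?_).trans ?_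
    · intro ω ω' hω hω' _ i
      have e1 := hfl ω i
      have e2 := hfl ω' i
      have e3 := hdiff ω ω' hω hω' i
      have e4 : (2 : ℝ) ^ (X + 1) = 2 ^ (s + 1) * 2 ^ (X - s) := by
        rw [← pow_add]
        congr 1
        omega
      rw [e4] at e3
      push_cast at e3 ⊢
      have e5 : (1 : ℝ) ≤ 2 ^ (s + 1) := one_le_pow₀ (by norm_num)
      have e6 : (2 : ℝ) ^ (s + 2) = 2 * 2 ^ (s + 1) := by rw [pow_succ]; ring
      rw [e6]
      exact ar2 hpos e5 e1.1 e1.2 e2.1 e2.2 e3
    · rw [Ex_const hp.sum_one]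
      refine mul_le_mul_of_nonneg_left ?_ (Nat.cast_nonneg _)
      have e1 : (2 : ℝ) * 2 ^ (s + 2) + 1 ≤ 2 ^ (s + 4) := by
        have e5 : (1 : ℝ) ≤ 2 ^ (s + 2) := one_le_pow₀ (by norm_num)
        have e6 : (2 : ℝ) ^ (s + 4) = 4 * 2 ^ (s + 2) := by
          rw [show s + 4 = (s + 2) + 2 from rfl, pow_add _ (s + 2) 2]; ring
        rw [e6]
        linarith
      refine (Real.log_le_log (by positivity) e1).trans ?_
      rw [Real.log_pow]
      push_cast
      exact le_rfl
  -- the fine digits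
  have h8 : CH p y (fun ω => (w ω, (yo ω, (I' ω, (Y ω, c ω))))) ≤
      n * ((s + 2) * Real.log 2 + (1 - β) * ((X + 3) * Real.log 2)) := by
    refine (CH_le_vec hp.nonneg hp.sum_one y _
      (fun ω => if G ω then 2 ^ s else 2 ^ (X + 1)) ?_).trans ?_
    · intro ω ω' hω hω' h i
      split_ifs with hb
      swap
      · exact hdiff ω ω' hω hω' i
      · simp only [Prod.mk.injEq] at h
        obtain ⟨k1, k2, k3, k4, k5⟩ := h
        have k3' : I' ω = some (I ω) := by rw [hI']; exact if_pos hb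
        have hb' : G ω' := by
          by_contra h'
          have : I' ω' = none := by rw [hI']; exact if_neg h'
          rw [k3', this] at k3
          exact Option.some_ne_none _ k3
        have k6 : I ω = I ω' := by
          have : I' ω' = some (I ω') := by rw [hI']; exact if_pos hb'
          rw [k3', this] at k3
          exact Option.some_injective _ k3
        have hX0 : (0 : ℝ) < 2 ^ X := by positivity
        have hbox : ∀ ω, 0 < p ω → ∀ i, |((y ω i : ℤ) : ℝ) / 2 ^ X| ≤ 1 := by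
          intro ω hω i
          rw [abs_div, abs_of_pos hX0, div_le_one hX0]
          exact hy ω hω i
        have hD : (2 ^ b * 1 ^ K : ℝ) ^ (r + 1) = 2 ^ (b * (r + 1)) := by
          rw [one_pow, mul_one, ← pow_mul]
        have hm0 : (0 : ℝ) < (1 / 2) ^ s₀ := by positivity
        have hCD : C₀ * (2 ^ b * 1 ^ K : ℝ) ^ (r + 1) ≤ 2 ^ s * (1 / 2) ^ s₀ := by
          rw [hD, hs]
          have e1 : (2 : ℝ) ^ (c₀ + b * (r + 1) + s₀) * (1 / 2) ^ s₀ =
              2 ^ c₀ * 2 ^ (b * (r + 1)) := by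
            rw [pow_add _ _ s₀, pow_add _ c₀]
            have e2 : (2 : ℝ) ^ s₀ * (1 / 2) ^ s₀ = 1 := by
              rw [← mul_pow]
              norm_num
            linear_combination (2 ^ c₀ * 2 ^ (b * (r + 1))) * e2
          rw [e1]
          exact mul_le_mul_of_nonneg_right hc₀ (by positivity)
        have key := hC₀ (P (c ω)) (I ω) (2 ^ b) 1 ((1 / 2) ^ s₀) (1 / 2 ^ X) (1 / 2 ^ s)
          (fun i => ((y ω i : ℤ) : ℝ) / 2 ^ X) (fun i => ((y ω' i : ℤ) : ℝ) / 2 ^ X)
          (one_le_pow₀ (by norm_num)) le_rfl (by positivity)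
          (hdeg _) (hcoeff _) (hbox ω hω) (hbox ω' hω') (by
            intro l hl
            have e1 := congrFun k2 l
            rw [hyo] at e1
            dsimp only at e1
            rw [if_pos ⟨hb, hl⟩, if_pos ⟨hb', k6 ▸ hl⟩] at e1
            rw [e1]) hm0 (hG ω hω hb) (by
            intro l
            have e1 := hfl ω l
            have e2 := hfl ω' l
            rw [congrFun k1 l] at e1
            have e3 : (1 : ℝ) / 2 ^ s = 2 ^ (X - s) / 2 ^ X := by
              rw [hXs]
              field_simp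
            rw [e3, ← sub_div, abs_div, abs_of_pos hX0]
            refine div_le_div_of_nonneg_right ?_ hX0.le
            exact ar3 e1.1 e1.2 e2.1 e2.2) (by
            calc C₀ * (2 ^ b * 1 ^ K : ℝ) ^ (r + 1) * (1 / 2 ^ s)
                ≤ 2 ^ s * (1 / 2) ^ s₀ * (1 / 2 ^ s) :=
                  mul_le_mul_of_nonneg_right hCD (by positivity)
              _ = (1 / 2) ^ s₀ := by field_simp) (by
            intro j
            have e1 := congrFun k4 j
            rw [hY] at e1
            dsimp only at e1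
            rw [← k5] at e1
            have e2 := Int.abs_sub_lt_one_of_floor_eq_floor e1.symm
            rw [← mul_sub, abs_mul, abs_of_pos hX0] at e2
            rw [le_div_iff₀ hX0]
            linarith) i
        have e7 : C₀ * (2 ^ b * 1 ^ K : ℝ) ^ (r + 1) * (1 / 2 ^ X) / (1 / 2) ^ s₀ ≤
            2 ^ s / 2 ^ X := by
          rw [div_le_iff₀ hm0]
          calc C₀ * (2 ^ b * 1 ^ K : ℝ) ^ (r + 1) * (1 / 2 ^ X)
              ≤ 2 ^ s * (1 / 2) ^ s₀ * (1 / 2 ^ X) :=
                mul_le_mul_of_nonneg_right hCD (by positivity)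
            _ = 2 ^ s / 2 ^ X * (1 / 2) ^ s₀ := by ring
        have e8 := key.trans e7
        rw [← sub_div, abs_div, abs_of_pos hX0] at e8
        have e9 := (div_le_div_iff_of_pos_right hX0).1 e8
        push_cast
        rw [abs_sub_comm]
        exact e9
    · refine mul_le_mul_of_nonneg_left ?_ (Nat.cast_nonneg _)
      have e1 : Ex p (fun ω => (s + 2) * Real.log 2 + (((X + 3) * Real.log 2) -
          ((X + 3) * Real.log 2) * in1 (G ω))) =
          (s + 2) * Real.log 2 + (1 - β) * ((X + 3) * Real.log 2) := by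
        rw [Ex_add, Ex_const hp.sum_one, Ex_sub, Ex_const hp.sum_one, Ex_smul]
        ring
      rw [← e1]
      refine Ex_mono hp.nonneg fun ω hω => ?_
      by_cases hb : G ω
      · rw [if_pos hb]
        unfold in1
        rw [if_pos hb, mul_one, sub_self, add_zero]
        have e2 : (2 : ℝ) * 2 ^ s + 1 ≤ 2 ^ (s + 2) := by
          have e5 : (1 : ℝ) ≤ 2 ^ s := one_le_pow₀ (by norm_num)
          have e6 : (2 : ℝ) ^ (s + 2) = 4 * 2 ^ s := by rw [pow_add]; ring
          rw [e6]
          linarith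
        refine (Real.log_le_log (by positivity) e2).trans ?_
        rw [Real.log_pow]
        push_cast
        exact le_rfl
      · rw [if_neg hb]
        unfold in1
        rw [if_neg hb, mul_zero, sub_zero]
        have e2 : (2 : ℝ) * 2 ^ (X + 1) + 1 ≤ 2 ^ (X + 3) := by
          have e5 : (1 : ℝ) ≤ 2 ^ (X + 1) := one_le_pow₀ (by norm_num)
          have e6 : (2 : ℝ) ^ (X + 3) = 4 * 2 ^ (X + 1) := by
            rw [show X + 3 = (X + 1) + 2 from rfl, pow_add _ (X + 1) 2]; ring
          rw [e6]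
          linarith
        refine (Real.log_le_log (by positivity) e2).trans ?_
        rw [Real.log_pow]
        push_cast
        have : 0 ≤ ((s : ℝ) + 2) * Real.log 2 := by positivity
        linarith
  -- the end
  have hsL : (s : ℝ) * Real.log 2 ≤ C₂ * S := by
    have h9 : (s : ℝ) * Real.log 2 ≤ s := mul_le_of_le_one_right (Nat.cast_nonneg _) hl2'
    linarith
  have t1 : (n : ℝ) * (s * Real.log 2) ≤ n * (C₂ * S) := mul_le_mul_of_nonneg_left hsL hn0
  have t2 : β * ((n - r) * 2 * Real.log 2) ≤ 2 * n := by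
    have e1 : β * ((n - r) * 2 * Real.log 2) ≤ β * (n * 2 * Real.log 2) := by
      refine mul_le_mul_of_nonneg_left ?_ hβ0
      have : (0 : ℝ) ≤ r * 2 * Real.log 2 := by positivity
      linarith
    have e2 : β * ((n : ℝ) * 2 * Real.log 2) ≤ 1 * (n * 2 * Real.log 2) :=
      mul_le_mul_of_nonneg_right hβ1 (by positivity)
    have e3 : (n : ℝ) * 2 * Real.log 2 ≤ n * 2 := mul_le_of_le_one_right (by positivity) hl2'
    linarith
  have t3 : (n : ℝ) * ((1 - β) * (3 * Real.log 2)) ≤ 3 * n := by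
    have e1 : (1 - β) * (3 * Real.log 2) ≤ 1 * 3 :=
      mul_le_mul (by linarith) (by linarith) (by positivity) (by norm_num)
    have e2 := mul_le_mul_of_nonneg_left e1 hn0
    linarith
  have t4 : (n : ℝ) * (6 * Real.log 2) ≤ 6 * n := by
    have e2 := mul_le_mul_of_nonneg_left hl2' hn0
    linarith
  have t5 : Real.log (n ^ r + 1) ≤ Real.log (n ^ r + 1) * S := le_mul_of_one_le_right hlog0 hS1
  have t6 : 11 * (n : ℝ) ≤ 11 * n * S := le_mul_of_one_le_right (by positivity) hS1
  have t7 : (0 : ℝ) ≤ (1 + (2 * n + r * C₂)) * S := by positivity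
  have t8 : C * S = Real.log (n ^ r + 1) * S + 11 * n * S + 2 * n * (C₂ * S) +
      (1 + (2 * n + r * C₂)) * S := by rw [hC]; ring
  rw [t8]
  have t9 : (n * X - r * X * β) * Real.log 2 = β * ((n - r) * X * Real.log 2) +
      n * ((1 - β) * (X * Real.log 2)) := by ring
  rw [t9]
  linarith

end Pool.DYN
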