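import Pool.Agent.H89.DYN.Walk
import Pool.Agent.H89.DYN.Inj
import Pool.Agent.H89.DYN.Lin

/-!
# The walk of a vector over polynomial maps: the rank of the gradients is small
-/

set_option autoImplicit false

namespace Pool.DYN

open Finset Real
open Pool.Agent.H49.Ent Pool.Agent.H32.Dense Pool.STK Pool.KS3 Pool.POLY
open Pool.BFL (MC)

section

variable {Ω W 𝒱 : Type} [Fintype Ω] [Fintype W]

/-- The rounded values. -/
noncomputable def fl {c d : ℕ} (X : ℕ) (Q : 𝒱 → Fin c → MvPolynomial (Fin d) ℝ)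
    (y : 𝒱 → Fin d → ℤ) (v : 𝒱) : Fin c → ℤ :=
  fun i => ⌊2 ^ X * MvPolynomial.eval (fun j => ((y v j : ℤ) : ℝ) / 2 ^ X) (Q v i)⌋

/-- The gradients at the sample. -/
noncomputable def gv {c d : ℕ} (X : ℕ) (Q : 𝒱 → Fin c → MvPolynomial (Fin d) ℝ)
    (y : 𝒱 → Fin d → ℤ) (v : 𝒱) (j : Fin d) : Fin c → ℝ :=
  fun i => MvPolynomial.eval (fun j => ((y v j : ℤ) : ℝ) / 2 ^ X) (MvPolynomial.pderiv j (Q v i))

variable {p : Ω → ℝ} {n : ℕ} {q : W → ℝ} {z : ℕ → W → Ω}

/-- Conditional subadditivity for tuples. -/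
theorem tup_cond_le {S T U C : Type} {c : ℕ → Ω → C} (h : MC p c n q z) (A : Ω → S) (B : Ω → T)
    (D : W → U) : ∀ j : ℕ, j ≤ n + 1 →
      CH q (tup A z j) (fun w => (tup B z j w, D w)) ≤ j * CH p A B := by
  have hq := h.isLaw.nonneg
  intro j
  induction j with
  | zero =>
    intro _
    have : CH q (tup A z 0) (fun w => (tup B z 0 w, D w)) = 0 := by
      refine CH_eq_zero hq ?_
      intro w w' _ _ _
      funext k
      exact k.elim0
    rw [this]
    simp
  | succ j ih =>
    intro hj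
    rw [tup_succ hq]
    have h1 : CH q (tup A z j) (fun w => (tup B z (j + 1) w, D w)) ≤
        CH q (tup A z j) (fun w => (tup B z j w, D w)) := by
      refine CH_mono_cond hq ?_
      intro w w' _ _ e
      refine Prod.ext ?_ (Prod.ext_iff.1 e).2
      funext k
      have := congrFun (Prod.ext_iff.1 e).1 k.castSucc
      simpa [tup] using this
    have h2 : CH q (fun w => A (z j w)) (fun w => (tup A z j w, (tup B z (j + 1) w, D w))) ≤
        CH q (fun w => A (z j w)) (fun w => B (z j w)) := by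
      refine CH_mono_cond hq ?_
      intro w w' _ _ e
      have := congrFun (Prod.ext_iff.1 (Prod.ext_iff.1 e).2).1 (Fin.last j)
      simpa [tup] using this
    rw [(h.marg j (by omega)).CH A B] at h2
    have h3 := ih (by omega)
    push_cast
    linarith

theorem alt_sum (a : ℕ → ℤ) (R : ℕ) :
    ∑ i ∈ range R, (a (2 * i) - a (2 * i + 1)) = ∑ k ∈ range (2 * R), (-1) ^ k * a k := by
  induction R with
  | zero => simp
  | succ R ih =>
    rw [Finset.sum_range_succ, ih, show 2 * (R + 1) = 2 * R + 1 + 1 by ring,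
      Finset.sum_range_succ, Finset.sum_range_succ, pow_succ, pow_mul]
    norm_num
    ring

/-- Replace a polynomial which is not bounded by `0`. -/
noncomputable def clip {d : ℕ} (K : ℕ) (B : ℝ) (P : MvPolynomial (Fin d) ℝ) :
    MvPolynomial (Fin d) ℝ :=
  open Classical in if P.totalDegree ≤ K ∧ ∀ m, |MvPolynomial.coeff m P| ≤ B then P else 0

theorem clip_deg {d : ℕ} (K : ℕ) (B : ℝ) (P : MvPolynomial (Fin d) ℝ) :
    (clip K B P).totalDegree ≤ K := by
  unfold clip
  split_ifs with h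
  · exact h.1
  · rw [MvPolynomial.totalDegree_zero]
    exact Nat.zero_le _

theorem clip_coeff {d : ℕ} (K : ℕ) {B : ℝ} (hB : 0 ≤ B) (P : MvPolynomial (Fin d) ℝ)
    (m : Fin d →₀ ℕ) : |MvPolynomial.coeff m (clip K B P)| ≤ B := by
  unfold clip
  split_ifs with h
  · exact h.2 m
  · rw [MvPolynomial.coeff_zero, abs_zero]
    exact hB

theorem clip_eq {d : ℕ} {K : ℕ} {B : ℝ} {P : MvPolynomial (Fin d) ℝ}
    (h : P.totalDegree ≤ K) (h' : ∀ m, |MvPolynomial.coeff m P| ≤ B) : clip K B P = P := by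
  unfold clip
  exact if_pos ⟨h, h'⟩

/-- Signs and a permutation of the rows do not change the absolute value of a determinant. -/
theorem abs_det {c : ℕ} (g : Fin c → Fin c → ℝ) (ρ : Fin c → Fin c) (σ : Fin c → ℝ)
    (hσ : ∀ a, |σ a| = 1) (h : (Matrix.of fun a b => g a (ρ b)).det ≠ 0) :
    |(Matrix.of fun i a => σ a * g a i).det| = |(Matrix.of fun a b => g a (ρ b)).det| := by
  classical
  have hinj : Function.Injective ρ := by
    intro b b' hb
    by_contra hne
    apply h
    refine Matrix.det_zero_of_column_eq hne fun i => ?_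
    simp only [Matrix.of_apply, hb]
  have hbij : Function.Bijective ρ := Finite.injective_iff_bijective.1 hinj
  set e : Equiv.Perm (Fin c) := Equiv.ofBijective ρ hbij with he
  have h1 : (Matrix.of fun a b => g a (ρ b)).det =
      (Equiv.Perm.sign e : ℤ) * (Matrix.of fun a b => g a b).det := by
    have h2 := Matrix.det_permute' e (Matrix.of fun a b => g a b)
    rw [← h2]
    rfl
  have h3 : (Matrix.of fun i a => σ a * g a i).det = (∏ a, σ a) * (Matrix.of fun a b => g a b).det := by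
    have h4 := Matrix.det_mul_row σ (Matrix.of fun i a => g a i)
    have h5 : (Matrix.of fun i a => g a i).det = (Matrix.of fun a b => g a b).det :=
      Matrix.det_transpose (Matrix.of fun a b => g a b)
    rw [← h5, ← h4]
    rfl
  rw [h1, h3, abs_mul, abs_mul, Finset.abs_prod, Finset.prod_congr rfl fun a _ => hσ a,
    Finset.prod_const_one, one_mul]
  rcases Int.units_eq_one_or (Equiv.Perm.sign e) with h2 | h2 <;> rw [h2] <;> simp

/-- **The rank of the gradients along the walk.** -/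
theorem rank_ent (R c d K : ℕ) : ∃ C : ℝ, 1 ≤ C ∧ ∀ (Ω 𝒱 W : Type) [Fintype Ω] [Fintype W]
    (p : Ω → ℝ) (X b s n : ℕ) (M : Ω → Fin c → ℤ) (V : Ω → 𝒱)
    (Q : 𝒱 → Fin c → MvPolynomial (Fin d) ℝ) (y : 𝒱 → Fin d → ℤ) (q : W → ℝ) (z : ℕ → W → Ω)
    (ε : ℝ), IsLaw p → 2 * R ≤ n →
    (∀ v i, (Q v i).totalDegree ≤ K) → (∀ v i m, |MvPolynomial.coeff m (Q v i)| ≤ 2 ^ b) →
    (∀ ω, 0 < p ω → ∀ j, |((y (V ω) j : ℤ) : ℝ)| ≤ 2 ^ X) →
    H p V - ε ≤ CH p V M → H p V - ε ≤ CH p V (fun ω => M ω + fl X Q y (V ω)) →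
    MC p (cw M (fun ω => M ω + fl X Q y (V ω))) n q z →
    c * X * Ex q (fun w => in1 (∃ (κ : Fin c → Fin (2 * R) × Fin d) (ρ : Fin c → Fin c),
      (1 / 2) ^ s ≤ |(Matrix.of fun a b => gv X Q y (V (z (κ a).1 w)) (κ a).2 (ρ b)).det|)) *
      Real.log 2 ≤
      H p M + 2 * R * (d * (X * Real.log 2) - CH p (fun ω => y (V ω)) (fun ω => Q (V ω)) + ε) +
        C * (b + s + 1) := by
  classical
  obtain ⟨C, hC1, hC⟩ := inj_ent (2 * R * d) c K
  refine ⟨C * (2 * R + 1) + c * Real.log (8 * R + 5), ?_, ?_⟩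
  · have h1 : 0 ≤ (c : ℝ) * Real.log (8 * R + 5) :=
      mul_nonneg (Nat.cast_nonneg _) (Real.log_nonneg (by
        have : (0 : ℝ) ≤ R := Nat.cast_nonneg _
        linarith))
    have h2 : 1 ≤ C * (2 * R + 1) := one_le_mul_of_one_le_of_one_le hC1 (by
      have : (0 : ℝ) ≤ R := Nat.cast_nonneg _
      linarith)
    linarith
  intro Ω 𝒱 W _ _ p X b s n M V Q y q z ε hp hRn hdeg hcoeff hy h1 h2 hMC
  have hq := hMC.isLaw.nonneg
  have hq1 := hMC.isLaw.sum_one
  set G : W → Prop := fun w => ∃ (κ : Fin c → Fin (2 * R) × Fin d) (ρ : Fin c → Fin c),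
      (1 / 2) ^ s ≤ |(Matrix.of fun a b => gv X Q y (V (z (κ a).1 w)) (κ a).2 (ρ b)).det| with hG
  set yV : Ω → Fin d → ℤ := fun ω => y (V ω) with hyV
  set QV : Ω → Fin c → MvPolynomial (Fin d) ℝ := fun ω => Q (V ω) with hQV
  -- fullness of the `y`
  have a1 := walk_indep hMC h1 h2 (2 * R) (by omega)
  have a2 : CH q (tup V z (2 * R)) (fun w => M (z 0 w)) ≤
      CH q (tup QV z (2 * R)) (fun w => M (z 0 w)) +
      CH q (tup V z (2 * R)) (fun w => (tup QV z (2 * R) w, M (z 0 w))) := CH_le_add hq _ _ _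
  have a3 : CH q (tup V z (2 * R)) (fun w => (tup QV z (2 * R) w, M (z 0 w))) ≤
      CH q (tup yV z (2 * R)) (fun w => (tup QV z (2 * R) w, M (z 0 w))) +
      CH q (tup V z (2 * R)) (fun w => (tup yV z (2 * R) w,
        (tup QV z (2 * R) w, M (z 0 w)))) := CH_le_add hq _ _ _
  have a4 : CH q (tup QV z (2 * R)) (fun w => M (z 0 w)) ≤ (2 * R : ℕ) * H p QV := by
    refine le_trans (CH_mono_cond hq fun _ _ _ _ _ => rfl) (tup_le hMC QV (2 * R) (by omega))
  have a5 : CH q (tup V z (2 * R)) (fun w => (tup yV z (2 * R) w,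
      (tup QV z (2 * R) w, M (z 0 w)))) ≤ (2 * R : ℕ) * CH p V (fun ω => (yV ω, QV ω)) := by
    refine le_trans ?_ (tup_cond_le hMC V (fun ω => (yV ω, QV ω)) (fun w => M (z 0 w)) (2 * R)
      (by omega))
    refine CH_mono_cond hq ?_
    intro w w' _ _ e
    simp only [Prod.mk.injEq] at e
    obtain ⟨e1, e2, e3⟩ := e
    refine Prod.ext ?_ e3
    funext k
    exact Prod.ext (congrFun e1 k) (congrFun e2 k)
  have a6 : H p V = H p QV + CH p yV QV + CH p V (fun ω => (yV ω, QV ω)) := by
    have b1 : H p V = H p (fun ω => (V ω, (yV ω, QV ω))) := by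
      refine H_congr hp.nonneg ?_ ?_
      · intro ω ω' _ _ e
        exact (Prod.ext_iff.1 e).1
      · intro ω ω' _ _ e
        simp only [hyV, hQV, e]
    unfold CH
    rw [b1]
    ring
  have hyfull : (2 * R : ℕ) * (CH p yV QV - ε) ≤
      CH q (tup yV z (2 * R)) (fun w => (tup QV z (2 * R) w, M (z 0 w))) := by
    rw [a6] at a1
    have e1 : ((2 * R : ℕ) : ℝ) * (H p QV + CH p yV QV + CH p V (fun ω => (yV ω, QV ω)) - ε) =
      (2 * R : ℕ) * H p QV + (2 * R : ℕ) * (CH p yV QV - ε) +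
        (2 * R : ℕ) * CH p V (fun ω => (yV ω, QV ω)) := by ring
    rw [e1] at a1
    linarith
  -- the big map
  set Ys : W → Fin (2 * R * d) → ℤ := fun w t =>
    yV (z (finProdFinEquiv.symm t).1 w) (finProdFinEquiv.symm t).2 with hYs
  set D : W → (Fin (2 * R) → Fin c → MvPolynomial (Fin d) ℝ) × (Fin c → ℤ) := fun w =>
    (tup QV z (2 * R) w, M (z 0 w)) with hD
  set P : (Fin (2 * R) → Fin c → MvPolynomial (Fin d) ℝ) × (Fin c → ℤ) →
    Fin c → MvPolynomial (Fin (2 * R * d)) ℝ := fun v =>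
    psum (fun k i => clip K (2 ^ b) (v.1 k i)) with hP
  have hclip : ∀ w (k : Fin (2 * R)) i, clip K (2 ^ b) ((D w).1 k i) = QV (z k w) i := by
    intro w k i
    exact clip_eq (hdeg _ i) (hcoeff _ i)
  have hPw : ∀ w, P (D w) = psum (fun (k : Fin (2 * R)) i => QV (z k w) i) := by
    intro w
    rw [hP]
    dsimp only
    congr 1
    funext k i
    exact hclip w k i
  have hYe : ∀ w (k : Fin (2 * R)) j, Ys w (emb k j) = yV (z k w) j := by
    intro w k j
    rw [hYs]
    dsimp only [emb]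
    rw [Equiv.symm_apply_apply]
  have hYfull : (2 * R : ℕ) * (CH p yV QV - ε) ≤ CH q Ys D := by
    refine hyfull.trans (CH_mono_left hq ?_)
    intro w w' _ _ e
    have e1 := (Prod.ext_iff.1 e).1
    funext k j
    have := congrFun e1 (emb k j)
    simp only [hYe] at this
    exact this
  have hε : 0 ≤ ε := by
    have e1 : CH p V M ≤ H p V := by
      have e2 : CH p V M ≤ CH p V (fun _ => ()) := CH_mono_cond hp.nonneg fun _ _ _ _ _ => rfl
      rw [← H_unit hp] at e2
      exact e2
    linarith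
  -- no columns at all
  by_cases hne : Nonempty (Fin c → Fin (2 * R * d))
  swap
  · have hGf : ∀ w, ¬ G w := by
      rintro w ⟨κ, -, -⟩
      exact hne ⟨fun a => emb (κ a).1 (κ a).2⟩
    have e1 : Ex q (fun w => in1 (G w)) = 0 := by
      unfold Ex in1
      refine Finset.sum_eq_zero fun w _ => ?_
      dsimp only
      rw [if_neg (hGf w), mul_zero]
    rw [e1, mul_zero, zero_mul]
    have e2 : 2 * (R : ℝ) * (d * (X * Real.log 2) - CH p yV QV + ε) = 2 * R * ε := by
      by_cases hR : R = 0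
      · subst hR; simp
      · have hd : d = 0 := by
          by_contra hd
          exact hne ⟨fun _ => ⟨0, Nat.mul_pos (Nat.mul_pos (by norm_num) (Nat.pos_of_ne_zero hR))
            (Nat.pos_of_ne_zero hd)⟩⟩
        subst hd
        have e3 : CH p yV QV = 0 := by
          refine CH_eq_zero hp.nonneg ?_
          intro ω ω' _ _ _
          funext j
          exact j.elim0
        rw [e3]
        simp
    rw [e2]
    have e3 : 0 ≤ H p M := H_nonneg hp.nonneg hp.sum_one M
    have e4 : 0 ≤ (c : ℝ) * Real.log (8 * R + 5) :=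
      mul_nonneg (Nat.cast_nonneg _) (Real.log_nonneg (by
        have : (0 : ℝ) ≤ R := Nat.cast_nonneg _
        linarith))
    positivity
  -- the columns
  set I : W → Fin c → Fin (2 * R * d) := fun w => if h : G w then
    fun a => emb (h.choose a).1 (h.choose a).2 else hne.some with hI
  set b' : ℕ := b + 2 * R with hb'
  have hnB : ((2 * R : ℕ) : ℝ) * 2 ^ b ≤ 2 ^ b' := by
    rw [hb', pow_add, mul_comm]
    refine mul_le_mul_of_nonneg_left ?_ (by positivity)
    exact_mod_cast Nat.lt_two_pow_self.le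
  have key := hC W _ q X b' s Ys D P I G hMC.isLaw (by
      intro w hw t
      rw [hYs]
      dsimp only
      have hz := (hMC.marg (finProdFinEquiv.symm t).1 (by
        have := (finProdFinEquiv.symm t).1.2
        omega)).pos hq hw
      exact hy _ hz _)
    (fun v i => totalDegree_psum _ (fun k i => clip_deg K _ _) i)
    (fun v i m => (coeff_psum _ (fun k i m => clip_coeff K (by positivity) _ m) i m).trans hnB)
    (by
      intro w hw hGw
      obtain ⟨ρ, hρ⟩ := hGw.choose_spec
      set κ := hGw.choose with hκ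
      have e1 : I w = fun a => emb (κ a).1 (κ a).2 := by
        rw [hI]
        dsimp only
        rw [dif_pos hGw]
      rw [hPw w, e1, eval_jac]
      have e2 : (Matrix.of fun (i : Fin c) (a : Fin c) => MvPolynomial.eval
          (fun t => ((Ys w t : ℤ) : ℝ) / 2 ^ X) (MvPolynomial.pderiv (emb (κ a).1 (κ a).2)
            (psum (fun (k : Fin (2 * R)) i => QV (z k w) i) i))) =
          Matrix.of fun i a => (-1) ^ ((κ a).1 : ℕ) *
            gv X Q y (V (z (κ a).1 w)) (κ a).2 i := by
        ext i a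
        simp only [Matrix.of_apply]
        rw [eval_pderiv_psum]
        simp only [hYe]
        rfl
      rw [e2, abs_det (fun a b => gv X Q y (V (z (κ a).1 w)) (κ a).2 b) ρ
        (fun a => (-1) ^ ((κ a).1 : ℕ)) (fun a => by rw [abs_pow, abs_neg, abs_one, one_pow]) ?_]
      · exact hρ
      · intro h0
        rw [h0, abs_zero] at hρ
        have : (0 : ℝ) < (1 / 2) ^ s := by positivity
        linarith)
  set Yf : W → Fin c → ℤ := fun w i => ⌊2 ^ X * MvPolynomial.eval
    (fun t => ((Ys w t : ℤ) : ℝ) / 2 ^ X) (P (D w) i)⌋ with hYf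
  set U : W → Fin c → ℤ := fun w => ∑ i ∈ range R,
    (fl X Q y (V (z (2 * i) w)) - fl X Q y (V (z (2 * i + 1) w))) with hU
  have b1 : CH q Ys D ≤ CH q U D + CH q Ys (fun w => (U w, D w)) := CH_le_add hq _ _ _
  have b2 : CH q Ys (fun w => (U w, D w)) ≤ CH q Yf (fun w => (U w, D w)) +
      CH q Ys (fun w => (Yf w, (U w, D w))) := CH_le_add hq _ _ _
  have b3 : CH q Ys (fun w => (Yf w, (U w, D w))) ≤ CH q Ys (fun w => (Yf w, D w)) :=
    CH_mono_cond hq fun w w' _ _ e => by
      simp only [Prod.mk.injEq] at e ⊢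
      exact ⟨e.1, e.2.2⟩
  have b4 : CH q U D ≤ H p M := by
    have e1 : CH q U D ≤ CH q (fun w => M (z (2 * R) w)) D := by
      refine CH_mono_left hq ?_
      intro w w' hw hw' e
      have e2 := walk_sum hMC w hw R hRn
      have e3 := walk_sum hMC w' hw' R hRn
      have e4 := (Prod.ext_iff.1 e).1
      have e5 := (Prod.ext_iff.1 (Prod.ext_iff.1 e).2).2
      simp only at e4
      change U w = U w'
      have e6 : U w = M (z (2 * R) w) - M (z 0 w) := by rw [e2, hU]; abel
      have e7 : U w' = M (z (2 * R) w') - M (z 0 w') := by rw [e3, hU]; abel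
      rw [e6, e7, e4]
      congr 1
    refine e1.trans ?_
    have e2 : CH q (fun w => M (z (2 * R) w)) D ≤ CH q (fun w => M (z (2 * R) w)) (fun _ => ()) :=
      CH_mono_cond hq fun _ _ _ _ _ => rfl
    rw [← H_unit hMC.isLaw, (hMC.marg (2 * R) hRn).H M] at e2
    exact e2
  have b5 : CH q Yf (fun w => (U w, D w)) ≤ c * Real.log (8 * R + 5) := by
    have hclose : ∀ w, ∀ i, |((Yf w i : ℤ) : ℝ) - U w i| ≤ 2 * R + 1 := by
      intro w i
      have e1 : (2 : ℝ) ^ X * MvPolynomial.eval (fun t => ((Ys w t : ℤ) : ℝ) / 2 ^ X)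
          (P (D w) i) = ∑ k ∈ range (2 * R), (-1) ^ k * (2 ^ X * MvPolynomial.eval
            (fun j => ((y (V (z k w)) j : ℤ) : ℝ) / 2 ^ X) (Q (V (z k w)) i)) := by
        rw [hPw w, eval_psum, Finset.mul_sum, Finset.sum_range]
        refine Finset.sum_congr rfl fun k _ => ?_
        simp only [hYe]
        ring
      have e2 : ((U w i : ℤ) : ℝ) = ∑ k ∈ range (2 * R), (-1) ^ k *
          ((fl X Q y (V (z k w)) i : ℤ) : ℝ) := by
        have e3 := alt_sum (fun k => fl X Q y (V (z k w)) i) R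
        have e4 : U w i = ∑ i' ∈ range R, (fl X Q y (V (z (2 * i') w)) i -
            fl X Q y (V (z (2 * i' + 1) w)) i) := by
          rw [hU]
          simp only [Finset.sum_apply, Pi.sub_apply]
        rw [e4, e3]
        push_cast
        rfl
      have e5 : |(2 : ℝ) ^ X * MvPolynomial.eval (fun t => ((Ys w t : ℤ) : ℝ) / 2 ^ X)
          (P (D w) i) - U w i| ≤ 2 * R := by
        rw [e1, e2, ← Finset.sum_sub_distrib]
        refine (Finset.abs_sum_le_sum_abs _ _).trans ?_
        have e6 : ∀ k ∈ range (2 * R), |(-1) ^ k * (2 ^ X * MvPolynomial.eval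
            (fun j => ((y (V (z k w)) j : ℤ) : ℝ) / 2 ^ X) (Q (V (z k w)) i)) -
            (-1) ^ k * ((fl X Q y (V (z k w)) i : ℤ) : ℝ)| ≤ 1 := by
          intro k _
          rw [← mul_sub, abs_mul, abs_pow, abs_neg, abs_one, one_pow, one_mul]
          unfold fl
          have e7 := Int.floor_le (2 ^ X * MvPolynomial.eval
            (fun j => ((y (V (z k w)) j : ℤ) : ℝ) / 2 ^ X) (Q (V (z k w)) i))
          have e8 := Int.lt_floor_add_one (2 ^ X * MvPolynomial.eval
            (fun j => ((y (V (z k w)) j : ℤ) : ℝ) / 2 ^ X) (Q (V (z k w)) i))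
          rw [abs_le]
          constructor <;> linarith
        refine (Finset.sum_le_sum e6).trans (le_of_eq ?_)
        rw [Finset.sum_const, Finset.card_range, nsmul_eq_mul, mul_one]
        push_cast
        ring
      have e7 := Int.floor_le ((2 : ℝ) ^ X * MvPolynomial.eval
        (fun t => ((Ys w t : ℤ) : ℝ) / 2 ^ X) (P (D w) i))
      have e8 := Int.lt_floor_add_one ((2 : ℝ) ^ X * MvPolynomial.eval
        (fun t => ((Ys w t : ℤ) : ℝ) / 2 ^ X) (P (D w) i))
      have e9 := abs_le.1 e5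
      rw [hYf]
      dsimp only
      rw [abs_le]
      constructor <;> linarith
    refine (CH_le_vec hq hq1 Yf _ (fun _ => 2 * (2 * R + 1)) ?_).trans ?_
    · intro w w' hw hw' e i
      have e1 := congrFun (Prod.ext_iff.1 e).1 i
      simp only at e1
      have e2 := abs_le.1 (hclose w i)
      have e3 := abs_le.1 (hclose w' i)
      rw [e1] at e2
      push_cast
      rw [abs_le]
      constructor <;> linarith
    · rw [Ex_const hq1]
      refine mul_le_mul_of_nonneg_left ?_ (Nat.cast_nonneg _)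
      refine Real.log_le_log (by positivity) ?_
      linarith
  -- the end
  have hβ : (0 : ℝ) ≤ (c : ℝ) * Real.log (8 * R + 5) :=
    mul_nonneg (Nat.cast_nonneg _) (Real.log_nonneg (by
      have : (0 : ℝ) ≤ R := Nat.cast_nonneg _
      linarith))
  have hR0 : (0 : ℝ) ≤ R := Nat.cast_nonneg _
  have hb0 : (0 : ℝ) ≤ b := Nat.cast_nonneg _
  have hs0 : (0 : ℝ) ≤ s := Nat.cast_nonneg _
  have c1 : C * (b' + s + 1) ≤ C * (2 * R + 1) * (b + s + 1) := by
    rw [mul_assoc]
    refine mul_le_mul_of_nonneg_left ?_ (by linarith)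
    rw [hb']
    push_cast
    have e1 : (0 : ℝ) ≤ R * b := mul_nonneg hR0 hb0
    have e2 : (0 : ℝ) ≤ R * s := mul_nonneg hR0 hs0
    linarith
  have c2 : (c : ℝ) * Real.log (8 * R + 5) ≤ c * Real.log (8 * R + 5) * (b + s + 1) :=
    le_mul_of_one_le_right hβ (by linarith)
  push_cast at key hYfull ⊢
  have c3 : (c : ℝ) * X * Ex q (fun w => in1 (G w)) * Real.log 2 ≤
      H p M + (2 * R * (d * (X * Real.log 2)) - CH q Ys D) +
        (c * Real.log (8 * R + 5) + C * (b' + s + 1)) := by
    have e1 : (2 * (R : ℝ) * d * X - c * X * Ex q (fun w => in1 (G w))) * Real.log 2 =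
      2 * R * (d * (X * Real.log 2)) - c * X * Ex q (fun w => in1 (G w)) * Real.log 2 := by ring
    rw [e1] at key
    linarith
  have c4 : 2 * (R : ℝ) * (d * (X * Real.log 2) - CH p yV QV + ε) =
      2 * R * (d * (X * Real.log 2)) - 2 * R * (CH p yV QV - ε) := by ring
  rw [c4]
  have c5 : (C * (2 * (R : ℝ) + 1) + c * Real.log (8 * R + 5)) * (b + s + 1) =
    C * (2 * R + 1) * (b + s + 1) + c * Real.log (8 * R + 5) * (b + s + 1) := by ring
  rw [c5]
  linarith

end

end Pool.DYN
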